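import Pool.Agent.Y696.CTK.Stm2

/-!
# Project CTE: `y² + y = x³` over the cubic extensions `F = K(θ)`, `θ³ = D`, of `K = ℚ(ω)`

`ED D` is the curve `y² + D y = x³`; `ED 1` is `y² + y = x³`. Over `F` the curves `ED 1`, `ED D`,
`ED (D²)` are isomorphic: `(x, y) ↦ (θ² x, D y)` maps `ED 1` to `ED D`.
-/

set_option autoImplicit false
set_option linter.unusedVariables false

open scoped Classical

namespace Pool.Agent.Y696.CTE

open NumberField IsDedekindDomain WeierstrassCurve WithZero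
open Pool.Agent.Y692.QS (Ei w nr toC)
open Pool.Agent.Y715.T.RecG (Pq)
open Pool.Agent.Y715.T.Rec (cs)
open Pool.Agent.Y703.CT
open Pool.Agent.Y696.CTK
open Pool.Agent.TH841.NF.D (Sha)

/-- `F` is a cubic extension of `K`, `θ³ = D`, and `D` is not a cube in `K` -/
structure Cub {K F : Type} [Field K] [NumberField K] [Field F] [NumberField F] [Algebra K F]
    (j : Ei ≃+* 𝓞 K) (D : Ei) (θ : 𝓞 F) : Prop where
  deg : Module.finrank K F = 3
  cube : θ ^ 3 = algebraMap (𝓞 K) (𝓞 F) (j D)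
  ne0 : D ≠ 0
  ncube : ∀ x : Ei, x ^ 3 ≠ D

/-- CTE-E6: the ramification index of the primes above `3` is `6`. (`D = 1 + 3 m` with
`3 v(θ - 1) = v(3 m)`, `m` a unit at `√-3`.) -/
def S_E6 : Prop := ∀ (K F : Type) [Field K] [NumberField K] [Field F] [NumberField F]
  [Algebra K F] (j : Ei ≃+* 𝓞 K) (D : Ei) (θ : 𝓞 F), Cub j D θ → (3 : Ei) ∣ D - 1 →
  ¬ (9 : ℤ) ∣ nr D - 1 → ∀ v : HeightOneSpectrum (𝓞 F), (3 : 𝓞 F) ∈ v.asIdeal →
    v.valuation F 3 = exp (-6 : ℤ)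

/-- CTE-RAM: the primes dividing the squarefree `D` are totally ramified. -/
def S_RAMF : Prop := ∀ (K F : Type) [Field K] [NumberField K] [Field F] [NumberField F]
  [Algebra K F] (j : Ei ≃+* 𝓞 K) (D : Ei) (θ : 𝓞 F), Cub j D θ → Squarefree D →
  ∀ P : HeightOneSpectrum (𝓞 K), j D ∈ P.asIdeal → ∃ v : HeightOneSpectrum (𝓞 F),
    (∀ u : HeightOneSpectrum (𝓞 F), u.asIdeal.comap (algebraMap (𝓞 K) (𝓞 F)) = P.asIdeal ↔
      u = v) ∧
    Nat.card (𝓞 F ⧸ v.asIdeal) = Nat.card (𝓞 K ⧸ P.asIdeal)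

/-- CTE-GAL: the Galois group and the Frobenius automorphisms. -/
def S_GAL : Prop := ∀ (K F : Type) [Field K] [NumberField K] [Field F] [NumberField F]
  [Algebra K F] (j : Ei ≃+* 𝓞 K) (D : Ei) (θ : 𝓞 F), Cub j D θ →
  IsGalois K F ∧ ∃ σ : F ≃ₐ[K] F, σ ^ 3 = 1 ∧ σ ≠ 1 ∧ (∀ g : F ≃ₐ[K] F, ∃ c : ZMod 3, g = σ ^ c.val) ∧
    (σ • θ : 𝓞 F) = algebraMap (𝓞 K) (𝓞 F) (j w) * θ ∧
    (∀ v : HeightOneSpectrum (𝓞 F), algebraMap (𝓞 K) (𝓞 F) (j (3 * D)) ∉ v.asIdeal →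
      ∀ g : F ≃ₐ[K] F, (∀ x : 𝓞 F, g • x - x ∈ v.asIdeal) → g = 1) ∧
    ∀ α : Ei, Prime α → ¬ α ∣ 3 → ¬ α ∣ D → ∀ v : HeightOneSpectrum (𝓞 F),
      algebraMap (𝓞 K) (𝓞 F) (j α) ∈ v.asIdeal → ∀ x : 𝓞 F,
        (σ ^ (cs α D).val) • x - x ^ Nat.card (𝓞 K ⧸ Ideal.span {j α}) ∈ v.asIdeal

/-- CTE-ART: the cubic residue symbol as a character modulo `3 D`, trivial on the units. -/
def S_ART : Prop := ∀ (K : Type) [Field K] [NumberField K] (j : Ei ≃+* 𝓞 K)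
  (J : Type) [Fintype J] (π : J → Ei), Dt π (fun _ => 1) →
  ¬ (9 : ℤ) ∣ nr (pD π (fun _ => 1)) - 1 →
  ∃ f : (𝓞 K ⧸ Ideal.span {j (3 * pD π (fun _ => 1))})ˣ →* Multiplicative (ZMod 3),
    Function.Surjective f ∧
    ∀ (u : (𝓞 K ⧸ Ideal.span {j (3 * pD π (fun _ => 1))})ˣ) (z α : Ei), IsUnit z →
      (3 : Ei) ∣ α - 1 → (u : 𝓞 K ⧸ Ideal.span {j (3 * pD π (fun _ => 1))}) =
        Ideal.Quotient.mk _ (j (z * α)) →
      f u = Multiplicative.ofAdd (∑ i, cs (π i) α)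

/-- CTE-MWF: the points over `F`. (For a generator `σ` of the Galois group the points
`∑ [ω]^(-i k) σ^k P` of `ED 1` over `F` correspond to points of `ED 1`, `ED D`, `ED D²` over `K`,
and their sum over `i` is `3 P`.) -/
def S_MWF : Prop := ∀ (K F : Type) [Field K] [NumberField K] [Field F] [NumberField F]
  [Algebra K F] (j : Ei ≃+* 𝓞 K) (D : Ei) (θ : 𝓞 F), Cub j D θ →
  Finite (ED (1 : K)).toAffine.Point → Finite (ED (j D : K)).toAffine.Point →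
  Finite (ED (j (D ^ 2) : K)).toAffine.Point → Finite (ED (1 : F)).toAffine.Point

/-- CTE-SHF: the Tate-Shafarevich group over `F`. (The same with the corestriction
`Pool.Agent.TH841.NF` `cor`, `sum_cor`, on the cocycles.) -/
def S_SHF : Prop := ∀ (K F : Type) [Field K] [NumberField K] [Field F] [NumberField F]
  [Algebra K F] (j : Ei ≃+* 𝓞 K) (D : Ei) (θ : 𝓞 F), Cub j D θ →
  (∀ (n : ℕ) (x : Sha (ED (1 : K))), 3 ^ n • x = 0 → x = 0) →
  (∀ (n : ℕ) (x : Sha (ED (j D : K))), 3 ^ n • x = 0 → x = 0) →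
  (∀ (n : ℕ) (x : Sha (ED (j (D ^ 2) : K))), 3 ^ n • x = 0 → x = 0) →
    ∀ (n : ℕ) (x : Sha (ED (1 : F))), 3 ^ n • x = 0 → 3 • x = 0

/-- CTE-SH1: the curve `y² + y = x³` over `K` itself. (The Selmer group of `√-3` is generated by
the class of `ω`, which is the image of the point `(-1, ω)`: the extensions `K(∛x)` with
`x = ω^a (√-3)^b`, and `b` is divisible by `3` by the local condition at `3`.) -/
def S_SH1 : Prop := ∀ (K : Type) [Field K] [NumberField K] (j : Ei ≃+* 𝓞 K),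
  ∀ (n : ℕ) (x : Sha (ED (1 : K))), 3 ^ n • x = 0 → x = 0

end Pool.Agent.Y696.CTE
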