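import Mathlib
import Pool.Agent.Y696.Ne

/-!
# Project CTE: the factorization of the L-function, general ramification at three
-/

set_option autoImplicit false
set_option linter.unusedVariables false
set_option linter.unusedSectionVars false

namespace Pool.Agent.Y696.CTE

open NumberField IsDedekindDomain IsLocalRing Filter Topology Complex
open Pool.Agent.W192.HK Pool.Agent.TH936.CM Pool.Agent.TH936.PU
open Pool.Agent.W189.NF (aV eV redMap Ov card_res finite_res)

section bad
variable {K₀ : Type} [Field K₀] [NumberField K₀]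

/-- additive reduction at three, ramification index six -/
lemma aV_bad6 {v : HeightOneSpectrum (𝓞 K₀)}
    (h : v.valuation K₀ 3 = WithZero.exp (-6 : ℤ)) :
    aV (E0 K₀) v = 0 ∧ eV (E0 K₀) v = 0 := by
  have hbc : (E0 K₀).baseChange (v.adicCompletion K₀) = E0 (v.adicCompletion K₀) := E0_map _
  unfold aV eV
  rw [hbc]
  refine aLoc_bad (L := v.adicCompletion K₀) (Ov v) fun u hu => ?_
  have h27 : Valued.v (27 : v.adicCompletion K₀) = (v.valuation K₀ 3) ^ 3 := by
    have e : (27 : v.adicCompletion K₀) = (algebraMap K₀ (v.adicCompletion K₀) 3) ^ 3 := by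
      rw [map_ofNat]; norm_num
    rw [e, map_pow, Pool.Agent.H723R3.valued_algebraMap]
  have hu' : Valued.v u ^ 12 = (v.valuation K₀ 3) ^ 3 := by
    rw [← val_eq v u, ← h27, ← val_eq v]
    exact hu
  have h0 : Valued.v u ≠ 0 := by
    intro h0
    rw [h0, zero_pow (by norm_num), h] at hu'
    exact pow_ne_zero 3 WithZero.exp_ne_zero hu'.symm
  obtain ⟨n, hn⟩ := exp_rep h0
  rw [h, hn, ← WithZero.exp_nsmul, ← WithZero.exp_nsmul, WithZero.exp_inj] at hu'
  simp only [nsmul_eq_mul] at hu'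
  push_cast at hu'
  omega

end bad

section hasse
variable {K : Type} [Field K] [NumberField K]

/-- the bound of Hasse -/
lemma hasseA (ι : eis →+* 𝓞 K) (h3 : ∀ v : HeightOneSpectrum (𝓞 K), (3 : 𝓞 K) ∈ v.asIdeal →
    aV (E0 K) v = 0 ∧ eV (E0 K) v = 0) (v : HeightOneSpectrum (𝓞 K)) :
    HBd (aV (E0 K) v) (eV (E0 K) v) (Pool.Agent.H921R2.TatePole.nm v) := by
  by_cases h : (3 : 𝓞 K) ∈ v.asIdeal
  · exact Or.inl (h3 v h)
  · obtain ⟨f, -, hf⟩ := deg_base ι v
    obtain ⟨h1, h2, h4⟩ := aV_val (ι := ι) v (by rw [map_ofNat]; exact h) hf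
    refine Or.inr ⟨psi (bel ι v).asIdeal ^ f, ?_, ?_, ?_⟩
    · rw [h1, map_pow]
    · rw [h2, map_pow, ← mul_pow, h4, hf]
      push_cast
      rfl
    · rw [map_pow, ← mul_pow, h4]
      change _ = ((nK v : ℕ) : ℂ)
      rw [hf]
      push_cast
      rfl

end hasse

section chr
variable {N K : Type} [Field N] [NumberField N] [Field K] [NumberField K] [Algebra N K]
variable {G : Type} [CommGroup G] [Finite G] [MulSemiringAction G (𝓞 K)] {c : 𝓞 N}
  {art : (𝓞 N ⧸ Ideal.span {c})ˣ →* G}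

/-- the factorization of the L-function -/
theorem LK_eqA (ι : eis →+* 𝓞 N) (D : DatN (N := N) (K := K) G c art) [Fintype (MulChar G ℂ)]
    (h3K : ∀ v : HeightOneSpectrum (𝓞 K), (3 : 𝓞 K) ∈ v.asIdeal →
      aV (E0 K) v = 0 ∧ eV (E0 K) v = 0)
    {π : HeightOneSpectrum (𝓞 N) → 𝓞 N} (hπ : ∀ P, Ideal.span {π P} = P.asIdeal)
    {Λ : MulChar G ℂ → ℂ → ℂ} {s : ℂ} (hs : 3 / 2 < s.re)
    (hΛ : ∀ χ : MulChar G ℂ, HasProd (fun P => ZZ' (xN art χ) π P s) (Λ χ s)) :
    LSeriesSummable ((fun n : ℤ => (n : ℂ)) ∘ (E0 K).LFunction) s ∧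
    (E0 K).LSeries s = (∏ P ∈ ScN D.c_ne, ∏ v : {v : HeightOneSpectrum (𝓞 K) // und v = P},
      XX v.1 s) * ∏ χ, Λ χ s := by
  classical
  have h1 := LSeries_hasProd' (E0 K) (hasseA ((algebraMap (𝓞 N) (𝓞 K)).comp ι) h3K) hs
  refine ⟨h1.1, ?_⟩
  have h2 : HasProd (fun v : HeightOneSpectrum (𝓞 K) => XX v s) ((E0 K).LSeries s) := h1.2
  have h3 := (Equiv.sigmaFiberEquiv (und (F := N) (K := K))).hasProd_iff.2 h2
  have h4 : HasProd (fun P : HeightOneSpectrum (𝓞 N) =>
      ∏ v : {v : HeightOneSpectrum (𝓞 K) // und v = P}, XX v.1 s) ((E0 K).LSeries s) := by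
    refine h3.sigma fun P => ?_
    exact hasProd_fintype _ (.unconditional _)
  have h5 : HasProd (fun P : HeightOneSpectrum (𝓞 N) => if P ∈ ScN D.c_ne then
      ∏ v : {v : HeightOneSpectrum (𝓞 K) // und v = P}, XX v.1 s else 1)
      (∏ P ∈ ScN D.c_ne, ∏ v : {v : HeightOneSpectrum (𝓞 K) // und v = P}, XX v.1 s) := by
    have h6 := hasProd_prod_of_ne_finset_one (L := .unconditional _) (s := ScN D.c_ne)
      (f := fun P : HeightOneSpectrum (𝓞 N) => if P ∈ ScN D.c_ne then
        ∏ v : {v : HeightOneSpectrum (𝓞 K) // und v = P}, XX v.1 s else 1)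
      (fun P hP => if_neg hP)
    rw [Finset.prod_congr rfl (fun P hP => if_pos hP)] at h6
    exact h6
  have h6 := h5.mul (hasProd_prod (s := (Finset.univ : Finset (MulChar G ℂ)))
    (fun χ _ => hΛ χ))
  refine h4.unique (h6.congr_fun fun P => ?_)
  by_cases hP : P ∈ ScN D.c_ne
  · rw [if_pos hP]
    have h7 : ∀ χ : MulChar G ℂ, ZZ' (xN art χ) π P s = 1 := by
      intro χ
      unfold ZZ'
      split_ifs with h8
      · rfl
      · have h9 : xN art χ (π P) = 0 := by
          apply xN_zero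
          rintro ⟨a, b, hab⟩
          apply P.isPrime.ne_top
          rw [Ideal.eq_top_iff_one, ← hab]
          refine P.asIdeal.add_mem (P.asIdeal.mul_mem_left _ ?_)
            (P.asIdeal.mul_mem_left _ ((mem_ScN D.c_ne).1 hP))
          rw [← hπ P]
          exact Ideal.mem_span_singleton_self _
        rw [h9]
        unfold YY
        simp
    rw [Finset.prod_congr rfl fun χ _ => h7 χ, Finset.prod_const_one, mul_one]
  · rw [if_neg hP, one_mul]
    have hPc : c ∉ P.asIdeal := fun h => hP ((mem_ScN D.c_ne).2 h)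
    by_cases h3P : (3 : 𝓞 N) ∈ P.asIdeal
    · have h7 : ∀ χ : MulChar G ℂ, ZZ' (xN art χ) π P s = 1 := by
        intro χ
        unfold ZZ'
        rw [if_pos h3P]
      rw [Finset.prod_congr rfl fun χ _ => h7 χ, Finset.prod_const_one]
      refine Finset.prod_eq_one fun v _ => ?_
      have h8 : (3 : 𝓞 K) ∈ v.1.asIdeal := by
        have := v.2
        rw [← map_ofNat (algebraMap (𝓞 N) (𝓞 K)) 3, ← mem_und, this]
        exact h3P
      obtain ⟨h9, h10⟩ := h3K v.1 h8
      unfold XX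
      rw [h9, h10]
      simp
    · have hcop : IsCoprime (π P) c := by
        have hmax : P.asIdeal.IsMaximal := P.isPrime.isMaximal P.ne_bot
        rw [← Ideal.isCoprime_span_singleton_iff, hπ, Ideal.isCoprime_iff_sup_eq]
        refine hmax.out.2 _ ?_
        refine lt_of_le_of_ne le_sup_left fun he => hPc ?_
        rw [he]
        exact Ideal.mem_sup_right (Ideal.mem_span_singleton_self c)
      obtain ⟨u, hu⟩ := (unitN_iff (c := c) (π P)).2 hcop
      rw [fib_goodN ι D hPc h3P (hπ P) hu (by linarith)]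
      refine Finset.prod_congr rfl fun χ _ => ?_
      unfold ZZ'
      rw [if_neg h3P, xN_unit χ hu]

end chr

end Pool.Agent.Y696.CTE
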