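import Mathlib
import Pool.Agent.Y696.CTK.LK
import Pool.Agent.Y696.CTE.LN

/-!
# Project CTE: the Euler products of the twisted L-functions over `K`
-/

set_option autoImplicit false
set_option linter.unusedVariables false
set_option linter.unusedSectionVars false

namespace Pool.Agent.Y696.CTE

open NumberField IsDedekindDomain WeierstrassCurve
open Pool.Agent.W189.NF (aV eV redMap)
open Pool.Agent.H921R2.TatePole (two_le_nm)
open Pool.Agent.Y715.T.Rs (eq0 eq0_coe card_quo)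
open Pool.Agent.Y703.CT
open Pool.Agent.Y696.CT
open Pool.Agent.Y696.CTK
open Pool.Agent.Y692.QS (Ei w toC)
open Pool.Agent.Y715.T.Rec (cs nn)
open Pool.Agent.Y715.T.RecG (Pq cs_spec)
open Pool.Agent.W192.HK Pool.Agent.TH936.CM Pool.Agent.TH936.PU
open scoped Classical

section
variable {K : Type} [Field K] [NumberField K] (j : Ei ≃+* 𝓞 K)

/-- the embedding of the ring `eis` -/
noncomputable def io : eis →+* 𝓞 K := (j : Ei →+* 𝓞 K).comp (eq0.symm : eis →+* Ei)

lemma io_eq (x : Ei) : io j (eq0 x) = j x := by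
  show j (eq0.symm (eq0 x)) = j x
  rw [eq0.symm_apply_apply]

/-- the chosen generator of a prime of `Ei` -/
noncomputable def g0 (P : HeightOneSpectrum Ei) : Ei :=
  if (3 : ℤ) ∣ Pool.Agent.Y692.QS.nr (Pool.Agent.Y696.CT.gn P.asIdeal) then
    Pool.Agent.Y696.CT.gn P.asIdeal
  else Pool.Agent.Y692.QS.ns (Pool.Agent.Y696.CT.gn P.asIdeal)

lemma g0_span (P : HeightOneSpectrum Ei) : P.asIdeal = Ideal.span {g0 P} := by
  unfold g0
  split_ifs with h
  · exact (Pool.Agent.Y696.CT.span_gn P.asIdeal).symm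
  · exact span_ns h

/-- the chosen generator of a prime of `K` -/
noncomputable def vp (P : HeightOneSpectrum (𝓞 K)) : 𝓞 K := j (g0 ((eK j).symm P))

lemma vp_pK (P : HeightOneSpectrum Ei) : vp j (pK j P) = j (g0 P) := by
  have h : pK j P = eK j P := rfl
  unfold vp
  rw [h, Equiv.symm_apply_apply]

lemma vp_span (P : HeightOneSpectrum (𝓞 K)) : Ideal.span {vp j P} = P.asIdeal := by
  obtain ⟨Q, rfl⟩ := (eK j).surjective P
  have h : eK j Q = pK j Q := rfl
  rw [h, vp_pK, pK_span j (g0_span Q)]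

/-- the prime above three -/
lemma three_iff (P : HeightOneSpectrum Ei) :
    (3 : 𝓞 K) ∈ (pK j P).asIdeal ↔
      (3 : ℤ) ∣ Pool.Agent.Y692.QS.nr (Pool.Agent.Y696.CT.gn P.asIdeal) := by
  have e : (3 : 𝓞 K) = j 3 := (map_ofNat j 3).symm
  rw [e, mem_pK]
  constructor
  · intro h
    by_contra hcon
    have h1 := span_ns hcon
    have h2 := pq_ns hcon
    rw [h1, Ideal.mem_span_singleton] at h
    exact h2.norm h
  · intro h
    rw [three_span h]
    rw [Ideal.mem_span_singleton]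
    refine ⟨-tht, ?_⟩
    have := tht_sq
    linear_combination this

/-- the data at a prime that does not divide three -/
lemma prime_data {P : HeightOneSpectrum Ei}
    (h : ¬ (3 : ℤ) ∣ Pool.Agent.Y692.QS.nr (Pool.Agent.Y696.CT.gn P.asIdeal)) :
    Pq (g0 P) ∧ psi (bel (io j) (pK j P)).asIdeal = toC (g0 P) ∧
      nK (pK j P) = Nat.card (eis ⧸ (bel (io j) (pK j P)).asIdeal) ^ 1 ∧
      ((nK (pK j P) : ℕ) : ℤ) = Pool.Agent.Y692.QS.nr (g0 P) := by
  have hg : g0 P = Pool.Agent.Y692.QS.ns (Pool.Agent.Y696.CT.gn P.asIdeal) := if_neg h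
  have hpq : Pq (g0 P) := by rw [hg]; exact pq_ns h
  have hb : (bel (io j) (pK j P)).asIdeal = sp (eq0 (g0 P)) := by
    ext x
    obtain ⟨y, rfl⟩ := eq0_surj x
    rw [mem_bel, io_eq, mem_pK, g0_span, Ideal.mem_span_singleton, Ideal.mem_span_singleton,
      map_dvd_iff eq0]
  have hnk : ((nK (pK j P) : ℕ) : ℤ) = Pool.Agent.Y692.QS.nr (g0 P) :=
    nm_nr j (pK_span j (g0_span P))
  refine ⟨hpq, ?_, ?_, hnk⟩
  · rw [hb, psi_prim, ← eq0_coe]
    rw [Ideal.mem_span_singleton]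
    have h1 := map_dvd eq0 hpq.three
    rwa [map_sub, map_one, map_ofNat] at h1
  · rw [pow_one, ← Nat.cast_inj (R := ℤ), hnk, hb]
    have h1 : Nat.card (eis ⧸ (sp (eq0 (g0 P)) : Ideal eis)) =
        Nat.card (Ei ⧸ Ideal.span {g0 P}) := by
      refine Nat.card_congr (Ideal.quotientEquiv _ _ eq0 ?_).toEquiv.symm
      rw [Ideal.map_span, Set.image_singleton]
      rfl
    rw [h1, card_quo]

/-- the local factor of a character with value `x` -/
lemma YY_val {P : HeightOneSpectrum Ei}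
    (h : ¬ (3 : ℤ) ∣ Pool.Agent.Y692.QS.nr (Pool.Agent.Y696.CT.gn P.asIdeal)) (x s : ℂ) :
    YY (pK j P) x s =
      ((1 - toC (g0 P) * x * ((Pool.Agent.Y692.QS.nr (g0 P) : ℤ) : ℂ) ^ (-s)) *
        (1 - (starRingEnd ℂ) (toC (g0 P)) * x *
          ((Pool.Agent.Y692.QS.nr (g0 P) : ℤ) : ℂ) ^ (-s)))⁻¹ := by
  obtain ⟨h1, h2, h3, h4⟩ := prime_data j h
  have h5 := npv_val (io j) (pK j P) (fun h' => h ((three_iff j P).1 h')) h3
  rw [h2, pow_one, pow_one] at h5
  have hq : ((Pool.Agent.Y692.QS.nr (g0 P) : ℤ) : ℂ) = ((nK (pK j P) : ℕ) : ℂ) := by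
    rw [← h4]
    push_cast
    rfl
  have hq0 : ((nK (pK j P) : ℕ) : ℂ) ≠ 0 := by
    have h6 : Pool.Agent.H921R2.TatePole.nm (pK j P) ≠ 0 := by
      have := two_le_nm (pK j P)
      omega
    exact_mod_cast h6
  have hαα : toC (g0 P) * (starRingEnd ℂ) (toC (g0 P)) = ((nK (pK j P) : ℕ) : ℂ) := by
    rw [Complex.mul_conj, Pool.Agent.Y692.QS.toC_normSq, ← hq]
    push_cast
    rfl
  have h8 : ((nK (pK j P) : ℕ) : ℂ) ^ (1 - 2 * s) = (nK (pK j P) : ℕ) *
      (((nK (pK j P) : ℕ) : ℂ) ^ (-s) * ((nK (pK j P) : ℕ) : ℂ) ^ (-s)) := by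
    rw [show (1 - 2 * s : ℂ) = 1 + ((-s) + (-s)) by ring, Complex.cpow_add _ _ hq0,
      Complex.cpow_add _ _ hq0, Complex.cpow_one]
  unfold YY
  rw [hq]
  congr 1
  push_cast
  rw [h5, h8]
  linear_combination (x ^ 2 * (((nK (pK j P) : ℕ) : ℂ) ^ (-s)) ^ 2) * (-hαα)

variable {J : Type} [Fintype J] {π : J → Ei} {e : J → ZMod 3}

lemma chD_conj (hpq : ∀ i, Pq (π i)) (e : J → ZMod 3) (α : Ei) :
    (starRingEnd ℂ) (chD π (fun i => -e i) α) = chD π e α := by
  unfold chD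
  split_ifs with h
  · rw [map_zero]
  · have e1 : ∑ i, -e i * cs (π i) α = -∑ i, e i * cs (π i) α := by
      rw [← Finset.sum_neg_distrib]
      exact Finset.sum_congr rfl fun i _ => by ring
    rw [e1, ← map_pow, ← toC_star', (w_inv _).1, map_pow]

/-- the Euler product of the twisted L-function -/
theorem eul (hpq : ∀ i, Pq (π i)) {F1 F2 : ℂ → ℂ} (h1 : IsHL π e F1)
    (h2 : IsHL π (fun i => -e i) F2) {s : ℂ} (hs : 3 / 2 < s.re) {x : 𝓞 K → ℂ}
    (hx : ∀ α : Ei, (3 : Ei) ∣ α - 1 → x (j α) = chD π e α) :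
    HasProd (fun P => ZZ' x (vp j) P s) (F1 s * (starRingEnd ℂ) (F2 ((starRingEnd ℂ) s))) := by
  have hsc : 3 / 2 < ((starRingEnd ℂ) s).re := by rwa [Complex.conj_re]
  have h3 := hasProd_Ei (gg_one hpq e s) (gg_mul hpq e s) (h1.2 s hs)
  have h4 := (hasProd_Ei (gg_one hpq (fun i => -e i) ((starRingEnd ℂ) s))
    (gg_mul hpq _ _) (h2.2 _ hsc)).map (starRingEnd ℂ) Complex.continuous_conj
  have h5 := h3.mul h4
  rw [← (eK j).hasProd_iff]
  refine h5.congr_fun fun P => ?_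
  have hP : eK j P = pK j P := rfl
  show ZZ' x (vp j) (eK j P) s = _
  rw [hP]
  unfold ZZ'
  by_cases h : (3 : ℤ) ∣ Pool.Agent.Y692.QS.nr (Pool.Agent.Y696.CT.gn P.asIdeal)
  · rw [if_pos ((three_iff j P).2 h)]
    unfold fI
    simp [h]
  · rw [if_neg fun h' => h ((three_iff j P).1 h')]
    obtain ⟨k1, -, -, -⟩ := prime_data j h
    have hfI : ∀ g : Ei → ℂ, fI g P.asIdeal = g (g0 P) := fun g => by
      rw [g0_span P, fI_prim g k1.three]
    rw [vp_pK, hx _ k1.three, YY_val j h, mul_inv]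
    show _ = (1 - fI (gg π e s) P.asIdeal)⁻¹ *
      (starRingEnd ℂ) ((1 - fI (gg π (fun i => -e i) ((starRingEnd ℂ) s)) P.asIdeal)⁻¹)
    rw [hfI, hfI]
    unfold gg
    rw [map_inv₀, map_sub, map_one, map_mul, map_mul, chD_conj hpq]
    congr 3
    rw [← Int.natAbs_of_nonneg (Pool.Agent.Y692.QS.nr_nonneg (g0 P)), Int.cast_natCast,
      conj_nat_cpow', map_neg, Complex.conj_conj]

end

end Pool.Agent.Y696.CTE
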