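import Mathlib
import Pool.Agent.Y696.Fin
import Pool.Agent.Y696.CTE.Eul

/-!
# Project CTE: the curve `y² + y = x³` over `K` itself
-/

set_option autoImplicit false
set_option linter.unusedVariables false
set_option linter.unusedSectionVars false

namespace Pool.Agent.Y696.CTE

open NumberField IsDedekindDomain IsLocalRing Filter Topology Complex
open Pool.Agent.W192.HK Pool.Agent.TH936.CM Pool.Agent.TH936.PU
open Pool.Agent.W189.NF (aV eV redMap)
open Pool.Agent.W192.CM (nu)
open Pool.Agent.Y715.T.Rs (eq0 eq0_coe card_quo)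
open Pool.Agent.Y692.QS (Ei)

section ent
variable {K : Type} [Field K] [NumberField K] {ι : eis →+* 𝓞 K} {G : Type} [CommGroup G] [Finite G]
  [MulSemiringAction G (𝓞 K)] {c : eis} {art : (eis ⧸ (sp c : Ideal eis))ˣ →* G}

/-- the analytic theorem for the modulus one -/
theorem entire_main (D : Dat ι G c art) (hc : IsUnit c) :
    ∃ Lf : ℂ → ℂ, Differentiable ℂ Lf ∧ (∀ s : ℂ, 3 / 2 < s.re →
      LSeriesSummable ((fun n : ℤ => (n : ℂ)) ∘ (E0 K).LFunction) s ∧ Lf s = (E0 K).LSeries s) ∧
      Lf 1 ≠ 0 := by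
  classical
  have hfinM : Finite (MulChar G ℂ) := inferInstance
  have : Fintype (MulChar G ℂ) := Fintype.ofFinite _
  have hH := fun χ : MulChar G ℂ => hecke D.c_ne D.cop3 (η := eta art χ) (et_eta_unit D χ)
  choose F hFd hFs hFl using hH
  have hS : Sc D.c_ne = ∅ := by
    rw [Finset.eq_empty_iff_forall_notMem]
    intro P hP
    exact P.isPrime.ne_top (Ideal.eq_top_of_isUnit_mem _ ((mem_Sc D.c_ne).1 hP) hc)
  set Lf : ℂ → ℂ := fun s => ∏ χ, (F χ s * (starRingEnd ℂ) (F χ ((starRingEnd ℂ) s))) with hLf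
  have hconj : ∀ χ, Differentiable ℂ (fun s => (starRingEnd ℂ) (F χ ((starRingEnd ℂ) s))) := by
    intro χ s
    exact differentiableAt_conj_conj_iff.2 (hFd χ _)
  refine ⟨Lf, Differentiable.fun_finsetProd fun χ _ => (hFd χ).mul (hconj χ), ?_, ?_⟩
  · intro s hs
    refine ⟨(LSeries_hasProd' (E0 K) (hasse D) hs).1, ?_⟩
    rw [LK_eq D hFs hs, hS, Finset.prod_empty, one_mul]
  · obtain ⟨V, hV⟩ := exists_over_two
    obtain ⟨Ω, hΩ, hC⟩ := exists_cur
    rw [hLf]
    simp only [map_one]
    refine Finset.prod_ne_zero_iff.2 fun χ _ => ?_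
    have h1 := v_FF D χ hC hV (hFl χ _ Ω hC.lat)
    intro h0
    rw [h0, zero_div, map_zero] at h1
    exact zero_ne_one h1

end ent

section base
variable {K : Type} [Field K] [NumberField K]

lemma gal_self : Subsingleton Gal(K/K) := by
  refine ⟨fun g h => ?_⟩
  ext x
  have h1 := g.commutes x
  have h2 := h.commutes x
  exact h1.trans h2.symm

lemma art_self : Art (F := K) (K := K) (1 : 𝓞 K) 1 where
  surj := fun g => ⟨1, gal_self.elim _ _⟩
  unr := fun v _ => by
    have h1 : Algebra.FormallyUnramified (𝓞 K) (Localization.AtPrime v.asIdeal) :=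
      Algebra.FormallyUnramified.of_isLocalization (v.asIdeal.primeCompl)
    exact h1
  frob := by
    intro π hπ u hu v hv x
    have hmax : (Ideal.span {π} : Ideal (𝓞 K)).IsMaximal := by
      have hp : (Ideal.span {π} : Ideal (𝓞 K)).IsPrime :=
        (Ideal.span_singleton_prime hπ.ne_zero).2 hπ
      exact hp.isMaximal (by rw [Ne, Ideal.span_singleton_eq_bot]; exact hπ.ne_zero)
    have hle : Ideal.span {π} ≤ v.asIdeal := by
      rw [Ideal.span_singleton_le_iff_mem]
      exact hv
    apply hle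
    let _ : Field (𝓞 K ⧸ Ideal.span {π}) := Ideal.Quotient.field _
    have hfin : Finite (𝓞 K ⧸ Ideal.span {π}) := Ideal.finiteQuotientOfFreeOfNeBot _
      (by rw [Ne, Ideal.span_singleton_eq_bot]; exact hπ.ne_zero)
    let _ : Fintype (𝓞 K ⧸ Ideal.span {π}) := Fintype.ofFinite _
    rw [← Ideal.Quotient.eq_zero_iff_mem, map_sub, map_pow, Nat.card_eq_fintype_card,
      FiniteField.pow_card, MonoidHom.one_apply, one_smul, sub_self]

/-- the L-function over `K` -/
theorem L0_ex [IsCyclotomicExtension {3} ℚ K] (j : Ei ≃+* 𝓞 K) : ∃ L0 : ℂ → ℂ, Differentiable ℂ L0 ∧ (∀ s : ℂ, 3 / 2 < s.re →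
      LSeriesSummable ((fun n : ℤ => (n : ℂ)) ∘ (E0 K).LFunction) s ∧ L0 s = (E0 K).LSeries s) ∧
      L0 1 ≠ 0 := by
  have hA := art_self (K := K)
  let := commG hA
  have hD := mkDat (n := 0) (by rw [Module.finrank_self, pow_zero]) hA
    ((j.symm : 𝓞 K ≃+* Ei).trans eq0) one_ne_zero isCoprime_one_left isCoprime_one_left
    (fun v hv => absurd (Ideal.eq_top_of_isUnit_mem _ hv isUnit_one) v.isPrime.ne_top)
  exact entire_main hD (by rw [map_one]; exact isUnit_one)

/-- the points over `K` -/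
theorem fin_one [IsCyclotomicExtension {3} ℚ K] :
    Finite (Pool.Agent.Y696.CTK.ED (1 : K)).toAffine.Point := by
  have hA := art_self (K := K)
  exact (all_art (F := K) (K := K) (n := 0) (by rw [Module.finrank_self, pow_zero])
    ⟨hA.surj, hA.unr, hA.frob⟩
    (fun v hv => absurd (Ideal.eq_top_of_isUnit_mem _ hv isUnit_one) v.isPrime.ne_top)).2.1

end base

end Pool.Agent.Y696.CTE
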