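import Mathlib
import Pool.Agent.Y696.CTE.Stm
import Pool.Agent.Y696.CTE.L0

/-!
# Project CTE: the L-function over `F`
-/

set_option autoImplicit false
set_option linter.unusedVariables false
set_option linter.unusedSectionVars false

namespace Pool.Agent.Y696.CTE

open NumberField IsDedekindDomain WeierstrassCurve
open Pool.Agent.W189.NF (aV eV redMap)
open Pool.Agent.H921R2.TatePole (two_le_nm)
open Pool.Agent.Y715.T.Rs (eq0 eq0_coe card_quo)
open Pool.Agent.Y703.CT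
open Pool.Agent.Y696.CT
open Pool.Agent.Y696.CTK
open Pool.Agent.Y692.QS (Ei w toC)
open Pool.Agent.Y715.T.Rec (cs nn)
open Pool.Agent.Y715.T.RecG (Pq cs_spec)
open Pool.Agent.W192.HK Pool.Agent.TH936.CM Pool.Agent.TH936.PU
open scoped Classical

section base
variable {K : Type} [Field K] [NumberField K]

/-- at three -/
lemma val3_K (j : Ei ≃+* 𝓞 K) (v : HeightOneSpectrum (𝓞 K)) (h : (3 : 𝓞 K) ∈ v.asIdeal) :
    v.valuation K 3 = WithZero.exp (-2 : ℤ) := by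
  obtain ⟨P, rfl⟩ := (eK j).surjective v
  have hP : eK j P = pK j P := rfl
  rw [hP] at h ⊢
  have h3 := (three_iff j P).1 h
  have h4 := pK_span j (three_span h3)
  have ht0 : j tht ≠ 0 := by
    rw [Ne, map_eq_zero_iff _ j.injective]
    exact tht_prime.ne_zero
  have h5 : (pK j P).intValuation (j tht) = WithZero.exp (-1 : ℤ) :=
    (pK j P).intValuation_singleton ht0 h4
  have h6 : (pK j P).valuation K ((j tht : 𝓞 K) : K) = WithZero.exp (-1 : ℤ) := by
    rw [← h5]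
    exact HeightOneSpectrum.valuation_of_algebraMap _ _
  have e : (3 : K) = -((j tht : 𝓞 K) : K) ^ 2 := by
    have h7 : (j tht) ^ 2 = -3 := by
      rw [← map_pow, tht_sq, map_neg, map_ofNat]
    have h8 : ((j tht : 𝓞 K) : K) ^ 2 = -3 := by
      have h9 := congrArg (algebraMap (𝓞 K) K) h7
      rwa [map_pow, map_neg, map_ofNat] at h9
    rw [h8, neg_neg]
  rw [e, Valuation.map_neg, map_pow, h6, ← WithZero.exp_nsmul]
  norm_num

lemma bad_K (j : Ei ≃+* 𝓞 K) (v : HeightOneSpectrum (𝓞 K)) (h : (3 : 𝓞 K) ∈ v.asIdeal) :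
    aV (E0 K) v = 0 ∧ eV (E0 K) v = 0 := aV_bad (Or.inr (val3_K j v h))

/-- the local factors of the curve itself -/
lemma XX_YY (j : Ei ≃+* 𝓞 K) (P : HeightOneSpectrum (𝓞 K)) (h : (3 : 𝓞 K) ∉ P.asIdeal) (s : ℂ) :
    XX P s = YY P 1 s := by
  obtain ⟨Q, rfl⟩ := (eK j).surjective P
  have hP : eK j Q = pK j Q := rfl
  rw [hP] at h ⊢
  have h3 : ¬ (3 : ℤ) ∣ Pool.Agent.Y692.QS.nr (Pool.Agent.Y696.CT.gn Q.asIdeal) :=
    fun h' => h ((three_iff j Q).2 h')
  obtain ⟨k1, k2, k3, k4⟩ := prime_data j h3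
  rw [YY_val j h3, XX_val (ι := io j) (pK j Q) (by rw [map_ofNat]; exact h) k3, k2, pow_one,
    pow_one, mul_one, mul_one]
  have e : (nm (bel (io j) (pK j Q)).asIdeal : ℂ) = ((Pool.Agent.Y692.QS.nr (g0 Q) : ℤ) : ℂ) := by
    rw [nm_P, ← k4]
    rw [pow_one] at k3
    rw [k3]
    push_cast
    rfl
  rw [e]

end base

section top
variable {K F : Type} [Field K] [NumberField K] [Field F] [NumberField F] [Algebra K F]

/-- the local factors of a place of degree one -/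
lemma XX_deg1 (j : Ei ≃+* 𝓞 K) {v : HeightOneSpectrum (𝓞 F)} {P : HeightOneSpectrum (𝓞 K)} (hv : und v = P)
    (h3 : (3 : 𝓞 K) ∉ P.asIdeal) (hc : Nat.card (𝓞 F ⧸ v.asIdeal) = Nat.card (𝓞 K ⧸ P.asIdeal))
    (s : ℂ) : XX v s = XX P s := by
  obtain ⟨Q, rfl⟩ := (eK j).surjective P
  have hP : eK j Q = pK j Q := rfl
  rw [hP] at h3 hv hc ⊢
  have h3' : ¬ (3 : ℤ) ∣ Pool.Agent.Y692.QS.nr (Pool.Agent.Y696.CT.gn Q.asIdeal) :=
    fun h' => h3 ((three_iff j Q).2 h')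
  obtain ⟨k1, k2, k3, k4⟩ := prime_data j h3'
  have hb : bel ((algebraMap (𝓞 K) (𝓞 F)).comp (io j)) v = bel (io j) (pK j Q) := by
    rw [← hv]
    rfl
  have h3F : (3 : 𝓞 F) ∉ v.asIdeal := by
    intro h
    apply h3
    rw [← hv, mem_und, map_ofNat]
    exact h
  have hn : nK v = Nat.card (eis ⧸ (bel ((algebraMap (𝓞 K) (𝓞 F)).comp (io j)) v).asIdeal) ^ 1 := by
    rw [hb, ← k3, ← card_nm v, hc, card_nm (pK j Q)]
  rw [XX_val (ι := (algebraMap (𝓞 K) (𝓞 F)).comp (io j)) v (by rw [map_ofNat]; exact h3F) hn,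
    XX_val (ι := io j) (pK j Q) (by rw [map_ofNat]; exact h3) k3, hb]

end top

end Pool.Agent.Y696.CTE
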