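import Mathlib
import Pool.Agent.Y696.CTE.LF

/-!
# Project CTE: the L-function over `F`, the factorization
-/

set_option autoImplicit false
set_option linter.unusedVariables false
set_option linter.unusedSectionVars false

namespace Pool.Agent.Y696.CTE

open NumberField IsDedekindDomain WeierstrassCurve
open Pool.Agent.W189.NF (aV eV redMap)
open Pool.Agent.H921R2.TatePole (two_le_nm)
open Pool.Agent.Y715.T.Rs (eq0 eq0_coe card_quo)
open Pool.Agent.Y703.CT
open Pool.Agent.Y696.CT
open Pool.Agent.Y696.CTK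
open Pool.Agent.Y692.QS (Ei w toC)
open Pool.Agent.Y715.T.Rec (cs nn)
open Pool.Agent.Y715.T.RecG (Pq cs_spec)
open Pool.Agent.W192.HK Pool.Agent.TH936.CM Pool.Agent.TH936.PU
open scoped Classical

/-! ### cyclic groups of order three -/

section cyc
variable {G : Type} [Group G] {σ : G} (h3 : σ ^ 3 = 1)

include h3 in
lemma pow_mod3 (n : ℕ) : σ ^ n = σ ^ (n % 3) := by
  conv_lhs => rw [← Nat.div_add_mod n 3, pow_add, pow_mul, h3, one_pow, one_mul]

/-- the homomorphism with `1 ↦ σ` -/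
noncomputable def zh : Multiplicative (ZMod 3) →* G where
  toFun c := σ ^ (Multiplicative.toAdd c).val
  map_one' := by simp
  map_mul' a b := by
    rw [toAdd_mul, ZMod.val_add, ← pow_mod3 h3, pow_add]

lemma zh_apply (c : ZMod 3) : zh h3 (Multiplicative.ofAdd c) = σ ^ c.val := rfl

variable (h1 : σ ≠ 1) (hg : ∀ g : G, ∃ c : ZMod 3, g = σ ^ c.val)

include hg in
lemma zh_surj : Function.Surjective (zh h3) := fun g => by
  obtain ⟨c, hc⟩ := hg g
  exact ⟨Multiplicative.ofAdd c, by rw [zh_apply, hc]⟩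

include h1 in
lemma zh_inj : Function.Injective (zh h3) := by
  rw [injective_iff_map_eq_one]
  intro c hc
  obtain ⟨c, rfl⟩ := Multiplicative.ofAdd.surjective c
  rw [zh_apply] at hc
  have hord : orderOf σ = 3 := orderOf_eq_prime h3 h1
  have h4 := orderOf_dvd_of_pow_eq_one hc
  rw [hord] at h4
  have h5 := c.val_lt
  have h6 : c.val = 0 := Nat.eq_zero_of_dvd_of_lt h4 h5
  rw [(ZMod.val_eq_zero c).1 h6]
  rfl

/-- the isomorphism -/
noncomputable def ze : Multiplicative (ZMod 3) ≃* G :=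
  MulEquiv.ofBijective (zh h3) ⟨zh_inj h3 h1, zh_surj h3 hg⟩

/-- the group is commutative -/
noncomputable abbrev cg : CommGroup G :=
  { (inferInstance : Group G) with
    mul_comm := fun a b => by
      obtain ⟨x, rfl⟩ := zh_surj h3 hg a
      obtain ⟨y, rfl⟩ := zh_surj h3 hg b
      rw [← map_mul, ← map_mul, mul_comm] }

end cyc

section chars
variable {G : Type} [CommGroup G] [Finite G] {σ : G} (h3 : σ ^ 3 = 1) (h1 : σ ≠ 1)
  (hg : ∀ g : G, ∃ c : ZMod 3, g = σ ^ c.val)

/-- the cube root of unity as a homomorphism -/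
noncomputable def wh : Multiplicative (ZMod 3) →* ℂˣ :=
  zh (σ := (Units.mk0 (toC w) (by
    intro h
    have h2 := congrArg (fun z : ℂ => z ^ 3) h
    have h4 : toC w ^ 3 = 1 := by
      rw [← map_pow]
      have : (w : Ei) ^ 3 = 1 := by decide
      rw [this, map_one]
    simp only [h4] at h2
    norm_num at h2))) (by
    apply Units.ext
    rw [Units.val_pow_eq_pow_val, Units.val_mk0, Units.val_one, ← map_pow]
    have : (w : Ei) ^ 3 = 1 := by decide
    rw [this, map_one])

lemma wh_apply (c : ZMod 3) : ((wh (Multiplicative.ofAdd c) : ℂˣ) : ℂ) = toC w ^ c.val := by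
  unfold wh
  rw [zh_apply, Units.val_pow_eq_pow_val, Units.val_mk0]

/-- the character with `σ ↦ ω` -/
noncomputable def ch : MulChar G ℂ :=
  MulChar.ofUnitHom ((wh.comp (ze h3 h1 hg).symm.toMonoidHom).comp
    (toUnits (G := G)).symm.toMonoidHom)

lemma ch_apply (c : ZMod 3) : ch h3 h1 hg (σ ^ c.val) = toC w ^ c.val := by
  have e : σ ^ c.val = (((toUnits (σ ^ c.val) : Gˣ)) : G) := rfl
  rw [e]
  unfold ch
  rw [MulChar.ofUnitHom_coe]
  have e2 : (ze h3 h1 hg).symm (σ ^ c.val) = Multiplicative.ofAdd c := by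
    rw [MulEquiv.symm_apply_eq]
    rfl
  show ((wh ((ze h3 h1 hg).symm (σ ^ c.val)) : ℂˣ) : ℂ) = _
  rw [e2, wh_apply]

lemma w_mul_val : ∀ c k : ZMod 3, ((w : Ei) ^ c.val) ^ k.val = w ^ (c * k).val := by decide

lemma toC_w3 : toC w ^ 3 = 1 := by
  rw [← map_pow]
  have : (w : Ei) ^ 3 = 1 := by decide
  rw [this, map_one]

lemma toC_w_inj {m n : ZMod 3} (h : toC w ^ m.val = toC w ^ n.val) : m = n := by
  rw [← map_pow, ← map_pow] at h
  have h2 : (w : Ei) ^ m.val = w ^ n.val := Pool.Agent.Y692.QS.toC_inj h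
  clear h
  revert h2
  revert m n
  decide

include h3 h1 hg in
/-- the product over the characters -/
lemma prod_chars [Fintype (MulChar G ℂ)] (Y : ℂ → ℂ) (c : ZMod 3) :
    ∏ χ : MulChar G ℂ, Y (χ (σ ^ c.val)) =
      Y 1 * Y (toC w ^ c.val) * Y (toC w ^ (-c).val) := by
  have hcard : Fintype.card (MulChar G ℂ) = 3 := by
    rw [← Nat.card_eq_fintype_card, MulChar.card_eq_card_units_of_hasEnoughRootsOfUnity]
    rw [Nat.card_congr toUnits.symm.toEquiv, ← Nat.card_congr (ze h3 h1 hg).toEquiv]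
    rw [Nat.card_congr Multiplicative.toAdd, Nat.card_zmod]
  have hinj : Function.Injective fun k : ZMod 3 => (ch h3 h1 hg) ^ k.val := by
    intro k l hkl
    have h5 : ((ch h3 h1 hg) ^ k.val) (σ ^ (1 : ZMod 3).val) =
      ((ch h3 h1 hg) ^ l.val) (σ ^ (1 : ZMod 3).val) := congrArg (fun χ => χ (σ ^ (1 : ZMod 3).val)) hkl
    have hu : IsUnit (σ ^ (1 : ZMod 3).val) := Group.isUnit _
    have h6 : ∀ n : ℕ, ((ch h3 h1 hg) ^ n) (σ ^ (1 : ZMod 3).val) = toC w ^ n := by
      intro n
      rcases Nat.eq_zero_or_pos n with rfl | hn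
      · rw [pow_zero, pow_zero, MulChar.one_apply hu]
      · rw [MulChar.pow_apply' _ hn.ne', ch_apply]
        have : (1 : ZMod 3).val = 1 := rfl
        rw [this, pow_one]
    rw [h6, h6] at h5
    exact toC_w_inj h5
  have hbij : Function.Bijective fun k : ZMod 3 => (ch h3 h1 hg) ^ k.val := by
    rw [Fintype.bijective_iff_injective_and_card]
    exact ⟨hinj, by rw [hcard, ZMod.card]⟩
  rw [← Function.Bijective.prod_comp hbij fun χ => Y (χ (σ ^ c.val))]
  have h7 : ∀ k : ZMod 3, ((ch h3 h1 hg) ^ k.val) (σ ^ c.val) = toC w ^ (c * k).val := by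
    intro k
    have hu : IsUnit (σ ^ c.val) := Group.isUnit _
    have h8 : ((ch h3 h1 hg) ^ k.val) (σ ^ c.val) = (toC w ^ c.val) ^ k.val := by
      rcases Nat.eq_zero_or_pos k.val with h | hn
      · rw [h, pow_zero, pow_zero, MulChar.one_apply hu]
      · rw [MulChar.pow_apply' _ hn.ne', ch_apply]
    rw [h8, ← map_pow, ← map_pow, ← map_pow, w_mul_val]
  rw [Finset.prod_congr rfl fun k _ => by rw [h7 k]]
  rw [show (Finset.univ : Finset (ZMod 3)) = {0, 1, -1} by decide,
    Finset.prod_insert (by decide), Finset.prod_insert (by decide), Finset.prod_singleton]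
  rw [mul_zero, mul_one, mul_neg_one, ZMod.val_zero, pow_zero, mul_assoc]

end chars

end Pool.Agent.Y696.CTE
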