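import Mathlib
import Pool.Agent.Y696.CTE.LF2

/-!
# Project CTE: the L-function over `F`, the Artin map and the theorem
-/

set_option autoImplicit false
set_option linter.unusedVariables false
set_option linter.unusedSectionVars false

namespace Pool.Agent.Y696.CTE

open NumberField IsDedekindDomain WeierstrassCurve
open Pool.Agent.W189.NF (aV eV redMap)
open Pool.Agent.H921R2.TatePole (two_le_nm)
open Pool.Agent.Y715.T.Rs (eq0 eq0_coe card_quo)
open Pool.Agent.Y703.CT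
open Pool.Agent.Y696.CT
open Pool.Agent.Y696.CTK
open Pool.Agent.Y692.QS (Ei w toC)
open Pool.Agent.Y715.T.Rec (cs nn)
open Pool.Agent.Y715.T.RecG (Pq cs_spec)
open Pool.Agent.W192.HK Pool.Agent.TH936.CM Pool.Agent.TH936.PU
open scoped Classical

section recip
variable {J : Type} [Fintype J] {π : J → Ei}

/-- reciprocity for the symbols with `D` -/
lemma cs_pD (hrec : S_REC) (hdt : Dt π (fun _ => 1)) {α : Ei} (hα : Pq α)
    (hnd : ¬ α ∣ pD π (fun _ => 1)) : cs α (pD π (fun _ => 1)) = ∑ i, cs (π i) α := by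
  have h1 : ∀ i, ¬ α ∣ π i := fun i hi => hnd (by
    rw [pD_one]
    exact hi.trans (Finset.dvd_prod_of_mem _ (Finset.mem_univ i)))
  have h2 : ∀ i, ¬ π i ∣ α := fun i hi => h1 i
    ((hdt.pq i).prime.associated_of_dvd hα.prime hi).symm.dvd
  rw [pD_one, Pool.Agent.Y715.T.RecG.cs_prod hα.prime hα.norm Finset.univ π (fun i _ => h1 i)]
  exact Finset.sum_congr rfl fun i _ => hrec (π i) α (hdt.pq i) hα (h1 i)

/-- associated elements have the same symbol -/
lemma cs_assoc {p α x : Ei} (hp : Prime p) (hp3 : ¬ p ∣ 3) (hα : Pq α) (h : Associated p α)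
    (hx : ¬ p ∣ x) : cs p x = cs α x := by
  have hx' : ¬ α ∣ x := fun h' => hx (h.dvd.trans h')
  have h1 := Pool.Agent.Y715.T.RecG.cs_spec hp hp3 hx
  symm
  apply Pool.Agent.Y715.T.RecG.cs_of hα.prime hα.norm
  have h2 : nn α = nn p := by
    unfold nn
    obtain ⟨u, hu⟩ := h
    rw [← hu, Pool.Agent.Y692.QS.nr_mul]
    have h3 := Pool.Agent.Y692.QS.isUnit_iff.1 u.isUnit
    rw [Int.natAbs_mul, h3]
    simp
  rw [h2]
  exact h.symm.dvd.trans h1

end recip

section main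
variable {K F : Type} [Field K] [NumberField K] [Field F] [NumberField F] [Algebra K F]
variable {J : Type} [Fintype J] {π : J → Ei}

/-- a prime is a unit times a primary prime -/
lemma exists_primary {p : Ei} (hp : Prime p) (hp3 : ¬ p ∣ 3) :
    ∃ z α : Ei, IsUnit z ∧ Pq α ∧ p = z * α ∧ Associated p α := by
  have h3 : ¬ (3 : ℤ) ∣ Pool.Agent.Y692.QS.nr p := by
    intro h
    have h4 : Ideal.span {p} = Ideal.span {tht} := by
      let P : HeightOneSpectrum Ei := ⟨Ideal.span {p}, (Ideal.span_singleton_prime hp.ne_zero).2 hp,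
        by rw [Ne, Ideal.span_singleton_eq_bot]; exact hp.ne_zero⟩
      have h5 : (3 : ℤ) ∣ Pool.Agent.Y692.QS.nr (Pool.Agent.Y696.CT.gn P.asIdeal) := by
        have h6 : Associated (Pool.Agent.Y696.CT.gn P.asIdeal) p := gn_span p
        rwa [(ns_of_assoc h6).2]
      exact three_span h5
    apply hp3
    have h5 := Ideal.span_singleton_eq_span_singleton.1 h4
    refine h5.dvd.trans ⟨-tht, ?_⟩
    have := tht_sq
    linear_combination this
  have h4 := ns_assoc h3
  obtain ⟨u, hu⟩ := h4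
  refine ⟨u, Pool.Agent.Y692.QS.ns p, u.isUnit, ⟨(show Associated (Pool.Agent.Y692.QS.ns p) p from
    ⟨u, hu⟩).symm.prime hp, ns_prim h3⟩, ?_, ?_⟩
  · rw [mul_comm]
    exact hu.symm
  · exact (show Associated (Pool.Agent.Y692.QS.ns p) p from ⟨u, hu⟩).symm

/-- the data of the extension with its Artin map -/
theorem mkDatE (hrec : S_REC) (j : Ei ≃+* 𝓞 K) (hdt : Dt π (fun _ => 1)) {θ : 𝓞 F}
    (hC : Cub j (pD π (fun _ => 1)) θ) [IsGalois K F] {σ : F ≃ₐ[K] F} (h3 : σ ^ 3 = 1)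
    (h1 : σ ≠ 1) (hg : ∀ g : F ≃ₐ[K] F, ∃ c : ZMod 3, g = σ ^ c.val)
    (hunr : ∀ v : HeightOneSpectrum (𝓞 F),
      algebraMap (𝓞 K) (𝓞 F) (j (3 * pD π (fun _ => 1))) ∉ v.asIdeal →
      ∀ g : F ≃ₐ[K] F, (∀ x : 𝓞 F, g • x - x ∈ v.asIdeal) → g = 1)
    (hfrob : ∀ α : Ei, Prime α → ¬ α ∣ 3 → ¬ α ∣ pD π (fun _ => 1) →
      ∀ v : HeightOneSpectrum (𝓞 F),
      algebraMap (𝓞 K) (𝓞 F) (j α) ∈ v.asIdeal → ∀ x : 𝓞 F,
        (σ ^ (cs α (pD π (fun _ => 1))).val) • x - x ^ Nat.card (𝓞 K ⧸ Ideal.span {j α}) ∈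
          v.asIdeal)
    {f : (𝓞 K ⧸ Ideal.span {j (3 * pD π (fun _ => 1))})ˣ →* Multiplicative (ZMod 3)}
    (hf : Function.Surjective f)
    (hfv : ∀ (u : (𝓞 K ⧸ Ideal.span {j (3 * pD π (fun _ => 1))})ˣ) (z α : Ei), IsUnit z →
      (3 : Ei) ∣ α - 1 → (u : 𝓞 K ⧸ Ideal.span {j (3 * pD π (fun _ => 1))}) =
        Ideal.Quotient.mk _ (j (z * α)) → f u = Multiplicative.ofAdd (∑ i, cs (π i) α)) :
    letI := cg h3 hg
    DatN (N := K) (K := F) (F ≃ₐ[K] F) (j (3 * pD π (fun _ => 1))) ((zh h3).comp f) := by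
  letI := cg h3 hg
  refine ⟨?_, ?_, ?_, ?_, ?_, ?_⟩
  · rw [Ne, map_eq_zero_iff _ j.injective]
    exact mul_ne_zero (by decide) hC.ne0
  · intro b hb
    exact Algebra.IsInvariant.isInvariant (A := 𝓞 K) (G := F ≃ₐ[K] F) b hb
  · intro g a
    exact smul_algebraMap (α := F ≃ₐ[K] F) g a
  · exact (zh_surj h3 hg).comp hf
  · exact hunr
  · intro ϖ hϖ u hu v hv x
    obtain ⟨p, rfl⟩ := j.surjective ϖ
    have hp : Prime p := (MulEquiv.prime_iff (j : Ei ≃* 𝓞 K)).1 hϖ
    have hcop : IsCoprime (j p) (j (3 * pD π (fun _ => 1))) := by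
      rw [← unitN_iff]
      rw [← hu]
      exact u.isUnit
    have hnd : ∀ y : Ei, y ∣ 3 * pD π (fun _ => 1) → ¬ p ∣ y := by
      intro y hy hpy
      have h4 : IsUnit (j p) := hcop.isUnit_of_dvd' dvd_rfl (map_dvd j (hpy.trans hy))
      exact hϖ.not_isUnit h4
    have hp3 : ¬ p ∣ 3 := hnd 3 (dvd_mul_right _ _)
    have hpD : ¬ p ∣ pD π (fun _ => 1) := hnd _ (dvd_mul_left _ _)
    obtain ⟨z, α, hz, hα, hpz, hass⟩ := exists_primary hp hp3
    have h5 := hfv u z α hz hα.three (by rw [hu, hpz])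
    have h6 : cs p (pD π (fun _ => 1)) = ∑ i, cs (π i) α := by
      rw [cs_assoc hp hp3 hα hass hpD, cs_pD hrec hdt hα fun h => hpD (hass.dvd.trans h)]
    have h7 : ((zh h3).comp f) u = σ ^ (cs p (pD π (fun _ => 1))).val := by
      rw [MonoidHom.comp_apply, h5, zh_apply, h6]
    rw [h7]
    exact hfrob p hp hp3 hpD v hv x

/-- **The factorization of the L-function over `F`.** -/
theorem LF_main (hE6 : S_E6) (hRAM : S_RAMF) (hGAL : S_GAL) (hART : S_ART) (hrec : S_REC)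
    (j : Ei ≃+* 𝓞 K) (hdt : Dt π (fun _ => 1))
    (h9 : ¬ (9 : ℤ) ∣ Pool.Agent.Y692.QS.nr (pD π (fun _ => 1)) - 1) {θ : 𝓞 F}
    (hC : Cub j (pD π (fun _ => 1)) θ) (hsq : Squarefree (pD π (fun _ => 1))) {F1 F2 : ℂ → ℂ}
    (k1 : IsHL π (fun _ => 1) F1) (k2 : IsHL π (fun _ => -1) F2) {s : ℂ} (hs : 3 / 2 < s.re) :
    LSeriesSummable ((fun n : ℤ => (n : ℂ)) ∘ (E0 F).LFunction) s ∧
    (E0 F).LSeries s = (E0 K).LSeries s * (F1 s * (starRingEnd ℂ) (F2 ((starRingEnd ℂ) s))) *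
      (F2 s * (starRingEnd ℂ) (F1 ((starRingEnd ℂ) s))) := by
  obtain ⟨hgal, σ, h3, h1, hg, hσθ, hunr, hfrob⟩ := hGAL K F j _ θ hC
  obtain ⟨f, hf, hfv⟩ := hART K j J π hdt h9
  have h3D : (3 : Ei) ∣ pD π (fun _ => 1) - 1 := by
    rw [pD_one]
    exact three_dvd_prod hdt.pq _
  let _ := cg h3 hg
  have hD := mkDatE hrec j hdt hC h3 h1 hg hunr hfrob hf hfv
  have hfinM : Finite (MulChar (F ≃ₐ[K] F) ℂ) := inferInstance
  have : Fintype (MulChar (F ≃ₐ[K] F) ℂ) := Fintype.ofFinite _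
  have h3F : ∀ v : HeightOneSpectrum (𝓞 F), (3 : 𝓞 F) ∈ v.asIdeal →
      aV (E0 F) v = 0 ∧ eV (E0 F) v = 0 := fun v hv =>
    aV_bad6 (hE6 K F j _ θ hC h3D h9 v hv)
  have hF := LSeries_hasProd' (E0 F) (hasseA ((algebraMap (𝓞 K) (𝓞 F)).comp (io j)) h3F) hs
  have hK := LSeries_hasProd' (E0 K) (hasseN (io j) (val3_K j)) hs
  refine ⟨hF.1, ?_⟩
  have q1 : HasProd (fun v : HeightOneSpectrum (𝓞 F) => XX v s) ((E0 F).LSeries s) := hF.2
  have q2 : HasProd (fun P : HeightOneSpectrum (𝓞 K) => XX P s) ((E0 K).LSeries s) := hK.2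
  have q3 := (Equiv.sigmaFiberEquiv (und (F := K) (K := F))).hasProd_iff.2 q1
  have q4 : HasProd (fun P : HeightOneSpectrum (𝓞 K) =>
      ∏ v : {v : HeightOneSpectrum (𝓞 F) // und v = P}, XX v.1 s) ((E0 F).LSeries s) := by
    refine q3.sigma fun P => ?_
    exact hasProd_fintype _ (.unconditional _)
  have k2' : IsHL π (fun i => -(fun _ : J => (1 : ZMod 3)) i) F2 := k2
  have k1' : IsHL π (fun i => -(fun _ : J => (-1 : ZMod 3)) i) F1 := by
    have e : (fun i : J => -(fun _ : J => (-1 : ZMod 3)) i) = fun _ => 1 := by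
      funext i
      exact neg_neg 1
    rw [e]
    exact k1
  have q5 := eul j (e := fun _ => 1) hdt.pq k1 k2' hs
    (x := fun y => chD π (fun _ => 1) (j.symm y)) (fun α _ => by rw [j.symm_apply_apply])
  have q6 := eul j (e := fun _ => -1) hdt.pq k2 k1' hs
    (x := fun y => chD π (fun _ => -1) (j.symm y)) (fun α _ => by rw [j.symm_apply_apply])
  refine q4.unique (((q2.mul q5).mul q6).congr_fun fun P => ?_)
  show _ = XX P s * ZZ' (fun y => chD π (fun _ => 1) (j.symm y)) (vp j) P s *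
    ZZ' (fun y => chD π (fun _ => -1) (j.symm y)) (vp j) P s
  by_cases h3P : (3 : 𝓞 K) ∈ P.asIdeal
  · have e1 : ∀ x : 𝓞 K → ℂ, ZZ' x (vp j) P s = 1 := fun x => if_pos h3P
    obtain ⟨a1, a2⟩ := bad_K j P h3P
    have e2 : XX P s = 1 := by
      unfold XX
      rw [a1, a2]
      simp
    rw [e1, e1, e2, mul_one, mul_one]
    refine Finset.prod_eq_one fun v _ => ?_
    have h8 : (3 : 𝓞 F) ∈ v.1.asIdeal := by
      have h7 := v.2
      rw [← map_ofNat (algebraMap (𝓞 K) (𝓞 F)) 3, ← mem_und, h7]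
      exact h3P
    obtain ⟨a3, a4⟩ := h3F v.1 h8
    unfold XX
    rw [a3, a4]
    simp
  · have e1 : ∀ x : 𝓞 K → ℂ, ZZ' x (vp j) P s = YY P (x (vp j P)) s := fun x => if_neg h3P
    rw [e1, e1]
    obtain ⟨Q, rfl⟩ := (eK j).surjective P
    have hP : eK j Q = pK j Q := rfl
    rw [hP] at h3P ⊢
    have h3Q : ¬ (3 : ℤ) ∣ Pool.Agent.Y692.QS.nr (Pool.Agent.Y696.CT.gn Q.asIdeal) :=
      fun h' => h3P ((three_iff j Q).2 h')
    obtain ⟨hpq, -, -, -⟩ := prime_data j h3Q
    rw [vp_pK, j.symm_apply_apply]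
    have hspan : Ideal.span {j (g0 Q)} = (pK j Q).asIdeal := (pK_span j (g0_span Q)).symm
    by_cases hDQ : g0 Q ∣ pD π (fun _ => 1)
    · have h0 : ∀ e : J → ZMod 3, chD π e (g0 Q) = 0 := fun e =>
        chD_bad hpq.prime hdt (Or.inl rfl) hDQ e
      have hy : YY (pK j Q) 0 s = 1 := by
        unfold YY
        simp
      rw [h0, h0, hy, mul_one, mul_one]
      obtain ⟨v, hv1, hv2⟩ := hRAM K F j _ θ hC hsq (pK j Q) (by
        rw [mem_pK, g0_span Q, Ideal.mem_span_singleton]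
        exact hDQ)
      have hund : ∀ u : HeightOneSpectrum (𝓞 F), und u = pK j Q ↔ u = v := by
        intro u
        rw [← hv1 u]
        constructor
        · intro h
          exact congrArg HeightOneSpectrum.asIdeal h
        · intro h
          exact HeightOneSpectrum.ext h
      have hu : Unique {u : HeightOneSpectrum (𝓞 F) // und u = pK j Q} :=
        ⟨⟨⟨v, (hund v).2 rfl⟩⟩, fun u => Subtype.ext ((hund u.1).1 u.2)⟩
      have hval : ∀ u : {u : HeightOneSpectrum (𝓞 F) // und u = pK j Q},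
          XX u.1 s = XX (pK j Q) s := by
        intro u
        have h5 := (hund u.1).1 u.2
        exact XX_deg1 j u.2 h3P (by rw [h5, hv2]) s
      rw [Finset.prod_congr rfl fun u _ => hval u, Finset.prod_const, Finset.card_univ]
      have hc1 : Fintype.card {u : HeightOneSpectrum (𝓞 F) // und u = pK j Q} = 1 := by
        rw [Fintype.card_eq_one_iff]
        exact ⟨⟨v, (hund v).2 rfl⟩, fun u => Subtype.ext ((hund u.1).1 u.2)⟩
      rw [hc1, pow_one]
    · have hPc : j (3 * pD π (fun _ => 1)) ∉ (pK j Q).asIdeal := by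
        rw [mem_pK, g0_span Q, Ideal.mem_span_singleton]
        intro h
        rcases hpq.prime.dvd_or_dvd h with h' | h'
        · exact hpq.norm h'
        · exact hDQ h'
      have hcop : IsCoprime (j (g0 Q)) (j (3 * pD π (fun _ => 1))) := by
        have hmax : (pK j Q).asIdeal.IsMaximal := (pK j Q).isPrime.isMaximal (pK j Q).ne_bot
        rw [← Ideal.isCoprime_span_singleton_iff, hspan, Ideal.isCoprime_iff_sup_eq]
        refine hmax.out.2 _ ?_
        refine lt_of_le_of_ne le_sup_left fun he => hPc ?_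
        rw [he]
        exact Ideal.mem_sup_right (Ideal.mem_span_singleton_self _)
      obtain ⟨u, hu⟩ := (unitN_iff (j (g0 Q))).2 hcop
      have hfu := hfv u 1 (g0 Q) isUnit_one hpq.three (by rw [one_mul]; exact hu)
      have hart : ((zh h3).comp f) u = σ ^ (∑ i, cs (π i) (g0 Q)).val := by
        rw [MonoidHom.comp_apply, hfu, zh_apply]
      rw [fib_goodN (io j) hD hPc h3P hspan hu (by linarith), hart,
        prod_chars h3 h1 hg (fun z => YY (pK j Q) z s), XX_YY j (pK j Q) h3P]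
      have hnd : ¬ ∃ i, π i ∣ g0 Q := by
        rintro ⟨i, hi⟩
        apply hDQ
        have h5 := ((hdt.pq i).prime.associated_of_dvd hpq.prime hi).symm.dvd
        rw [pD_one]
        exact h5.trans (Finset.dvd_prod_of_mem _ (Finset.mem_univ i))
      have c1 : chD π (fun _ => 1) (g0 Q) = toC w ^ (∑ i, cs (π i) (g0 Q)).val := by
        unfold chD
        rw [if_neg hnd]
        congr 2
        exact Finset.sum_congr rfl fun i _ => one_mul _
      have c2 : chD π (fun _ => -1) (g0 Q) = toC w ^ (-∑ i, cs (π i) (g0 Q)).val := by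
        unfold chD
        rw [if_neg hnd]
        congr 2
        rw [← Finset.sum_neg_distrib]
        exact Finset.sum_congr rfl fun i _ => neg_one_mul _
      rw [c1, c2]

end main

end Pool.Agent.Y696.CTE
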