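import Mathlib
import Pool.Agent.Y696.CTK.Asm
import Pool.Agent.Y696.CTE.Stm

/-!
# Project CTE: both twists `D` and `D²` over `K`
-/

set_option autoImplicit false
set_option linter.unusedVariables false

open scoped Classical

namespace Pool.Agent.Y696.CTE

open NumberField IsDedekindDomain WeierstrassCurve WithZero
open Pool.Agent.Y692.QS (Ei w toC)
open Pool.Agent.Y715.T.RecG (Pq)
open Pool.Agent.Y703.CT
open Pool.Agent.Y696 (NonsingRed Cur)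
open Pool.Agent.Y715.T.Gi Pool.Agent.Y715.T.Nr Pool.Agent.Y715.T.Df Pool.Agent.Y715.T.Ell
open Pool.Agent.TH841.NF.D (Sha)
open Pool.Agent.Y715.T.Three (lam_ne sq_three)
open Pool.Agent.Y696.CTK

section
variable {J : Type} [Fintype J] {π : J → Ei}

lemma pD_two : pD π (fun _ => -1) = pD π (fun _ => 1) ^ 2 := by
  unfold pD
  rw [← Finset.prod_pow]
  refine Finset.prod_congr rfl fun i _ => ?_
  have h1 : ((-1 : ZMod 3)).val = 2 := rfl
  have h2 : ((1 : ZMod 3)).val = 1 := rfl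
  rw [h1, h2, pow_one]

lemma dt_neg (hD : Dt π (fun _ => 1)) : Dt π (fun _ => -1) := hD.neg

lemma ker_neg (hk : Ker π (fun _ => 1)) : Ker π (fun _ => -1) := hk.neg

lemma nine_neg (hD : Dt π (fun _ => 1))
    (h9 : ¬ (9 : ℤ) ∣ Pool.Agent.Y692.QS.nr (pD π (fun _ => 1)) - 1) :
    ¬ (9 : ℤ) ∣ Pool.Agent.Y692.QS.nr (pD π (fun _ => -1)) - 1 := by
  rw [sum_ne_iff hD] at h9
  rw [sum_ne_iff (dt_neg hD)]
  exact sum_neg_ne h9

/-- the points and the Tate-Shafarevich groups of both twists -/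
theorem both (P : Parts) {K : Type} [Field K] [NumberField K] (j : Ei ≃+* 𝓞 K) [Nonempty J]
    (hD : Dt π (fun _ => 1)) (hk : Ker π (fun _ => 1))
    (h9 : ¬ (9 : ℤ) ∣ Pool.Agent.Y692.QS.nr (pD π (fun _ => 1)) - 1) :
    (Finite (ED (j (pD π (fun _ => 1)) : K)).toAffine.Point ∧
      ∀ (n : ℕ) (x : Sha (ED (j (pD π (fun _ => 1)) : K))), 3 ^ n • x = 0 → x = 0) ∧
    (Finite (ED (j (pD π (fun _ => 1) ^ 2) : K)).toAffine.Point ∧
      ∀ (n : ℕ) (x : Sha (ED (j (pD π (fun _ => 1) ^ 2) : K))), 3 ^ n • x = 0 → x = 0) := by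
  have hne : pD π (fun _ => 1) ≠ 0 := Pool.Agent.Y153.CTRAM.ne_zero_of hD
  have hne' : pD π (fun _ => -1) ≠ 0 := Pool.Agent.Y153.CTRAM.ne_zero_of (dt_neg hD)
  refine ⟨⟨(P.mwt P.trf K j _ hne fun i₀ hi u a hT => (descK hD hk h9 hT).2).1,
      P.sht P.trf K j _ hne fun i₀ hi u a hT => (descK hD hk h9 hT).1⟩, ?_⟩
  rw [← pD_two]
  exact ⟨(P.mwt P.trf K j _ hne' fun i₀ hi u a hT =>
      (descK (dt_neg hD) (ker_neg hk) (nine_neg hD h9) hT).2).1,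
      P.sht P.trf K j _ hne' fun i₀ hi u a hT =>
        (descK (dt_neg hD) (ker_neg hk) (nine_neg hD h9) hT).1⟩

/-- the central value is not zero -/
lemma val_ne {e : J → ZMod 3} [Nonempty J] (hD : Dt π e) (hk : Ker π e)
    (h9 : ¬ (9 : ℤ) ∣ Pool.Agent.Y692.QS.nr (pD π e) - 1) :
    ∃ F : ℂ → ℂ, IsHL π (fun j => -e j) F ∧ F 1 ≠ 0 := by
  obtain ⟨F, hF, hval⟩ := val_sq hD h9
  refine ⟨F, hF, fun h0 => ?_⟩
  obtain ⟨V, hV⟩ := Pool.Agent.Y715.T.Fin.exists_over_three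
  obtain ⟨Ω, hΩ, hC⟩ := exists_cur
  obtain ⟨g, -, hg2, -, hg⟩ := hval V.ValueGroup V.valuation hV _ Ω hC
  rw [hg2 hk, mul_one] at hg
  have hl : V.valuation Pool.Agent.Y715.T.Three.lam ≠ 0 := lam_ne
  rw [h0, zero_mul, zero_div, map_zero, zero_mul] at hg
  exact pow_ne_zero _ (mul_ne_zero hl hl) hg.symm

/-- the two functions -/
theorem two_F [Nonempty J] (hD : Dt π (fun _ => 1)) (hk : Ker π (fun _ => 1))
    (h9 : ¬ (9 : ℤ) ∣ Pool.Agent.Y692.QS.nr (pD π (fun _ => 1)) - 1) :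
    ∃ F1 F2 : ℂ → ℂ, IsHL π (fun _ => 1) F1 ∧ IsHL π (fun _ => -1) F2 ∧ F1 1 ≠ 0 ∧ F2 1 ≠ 0 := by
  obtain ⟨F2, h1, h2⟩ := val_ne hD hk h9
  obtain ⟨F1, h3, h4⟩ := val_ne (dt_neg hD) (ker_neg hk) (nine_neg hD h9)
  refine ⟨F1, F2, ?_, h1, h4, h2⟩
  have e : (fun j : J => - (fun _ : J => (-1 : ZMod 3)) j) = fun _ => 1 := by
    funext i
    exact neg_neg 1
  rw [e] at h3
  exact h3

/-- the product is squarefree and not a cube -/
lemma ncube {D : Ei} (hsq : Squarefree D) (hD : ¬ IsUnit D) : ∀ x : Ei, x ^ 3 ≠ D := by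
  intro x hx
  apply hD
  have h1 : x * x ∣ D := ⟨x, by rw [← hx]; ring⟩
  have h2 := hsq x h1
  rw [← hx]
  exact h2.pow 3

end

end Pool.Agent.Y696.CTE
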