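import Mathlib
import Pool.Agent.Y696.CTK.Crit
import Pool.Agent.Y696.CTE.LF3
import Pool.Agent.Y696.CTE.L0
import Pool.Agent.Y696.CTE.Tw

/-!
# Project CTE: assembly
-/

set_option autoImplicit false
set_option linter.unusedVariables false

open scoped Classical

namespace Pool.Agent.Y696.CTE

open NumberField IsDedekindDomain WeierstrassCurve WithZero
open Pool.Agent.Y692.QS (Ei w toC)
open Pool.Agent.Y715.T.RecG (Pq)
open Pool.Agent.Y703.CT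
open Pool.Agent.TH841.NF.D (Sha)
open Pool.Agent.Y696.CTK
open Pool.Agent.TH936.CM

/-- the parts of project CTE -/
structure PartsE : Prop where
  e6 : S_E6
  ramf : S_RAMF
  gal : S_GAL
  art : S_ART
  mwf : S_MWF
  shf : S_SHF
  sh1 : S_SH1

/-- `L(E / F, s)` is entire; if `t`, then its value at `1` is not zero, `E(F)` is finite and
`Ш(E / F)[3^∞]` is killed by `3` -/
def LawE (F : Type) [Field F] [NumberField F] (t : Prop) : Prop :=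
  ∃ Lf : ℂ → ℂ, Differentiable ℂ Lf ∧
    (∀ s : ℂ, 3 / 2 < s.re → LSeriesSummable ((fun n : ℤ => (n : ℂ)) ∘ (ED (1 : F)).LFunction) s ∧
      Lf s = (ED (1 : F)).LSeries s) ∧
    (t → Lf 1 ≠ 0 ∧ Finite (ED (1 : F)).toAffine.Point ∧
      ∀ (n : ℕ) (x : Sha (ED (1 : F))), 3 ^ n • x = 0 → 3 • x = 0)

/-- the two functions, in general -/
theorem two_F' {J : Type} [Fintype J] {π : J → Ei} [Nonempty J] (hD : Dt π (fun _ => 1))
    (h9 : ¬ (9 : ℤ) ∣ Pool.Agent.Y692.QS.nr (pD π (fun _ => 1)) - 1) :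
    ∃ F1 F2 : ℂ → ℂ, IsHL π (fun _ => 1) F1 ∧ IsHL π (fun _ => -1) F2 ∧
      (Ker π (fun _ => 1) → F1 1 ≠ 0 ∧ F2 1 ≠ 0) := by
  by_cases hk : Ker π (fun _ => 1)
  · obtain ⟨F1, F2, h1, h2, h3, h4⟩ := two_F hD hk h9
    exact ⟨F1, F2, h1, h2, fun _ => ⟨h3, h4⟩⟩
  · obtain ⟨F2, h1, -⟩ := val_sq hD h9
    obtain ⟨F1, h3, -⟩ := val_sq (dt_neg hD) (nine_neg hD h9)
    refine ⟨F1, F2, ?_, h1, fun h => absurd h hk⟩
    have e : (fun j : J => - (fun _ : J => (-1 : ZMod 3)) j) = fun _ => 1 := by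
      funext i
      exact neg_neg 1
    rw [e] at h3
    exact h3

/-- the theorem for one extension -/
theorem lawE (P : Parts) (Q : PartsE) {K : Type} [Field K] [NumberField K]
    [IsCyclotomicExtension {3} ℚ K] (j : Ei ≃+* 𝓞 K)
    {J : Type} [Fintype J] [Nonempty J] {π : J → Ei} (hD : Dt π (fun _ => 1))
    (hsq : Squarefree (pD π (fun _ => 1)))
    (h9 : ¬ (9 : ℤ) ∣ Pool.Agent.Y692.QS.nr (pD π (fun _ => 1)) - 1)
    {F : Type} [Field F] [NumberField F] [Algebra K F] (hdeg : Module.finrank K F = 3) (θ : 𝓞 F)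
    (hθ : θ ^ 3 = algebraMap (𝓞 K) (𝓞 F) (j (pD π (fun _ => 1)))) :
    LawE F (Ker π (fun _ => 1)) := by
  have hne : pD π (fun _ => 1) ≠ 0 := Pool.Agent.Y153.CTRAM.ne_zero_of hD
  have hnu : ¬ IsUnit (pD π (fun _ => 1)) := by
    intro hu
    obtain ⟨i⟩ := (inferInstance : Nonempty J)
    refine (hD.pq i).prime.not_isUnit (isUnit_of_dvd_unit ?_ hu)
    rw [pD_one]
    exact Finset.dvd_prod_of_mem _ (Finset.mem_univ i)
  have hC : Cub j (pD π (fun _ => 1)) θ := ⟨hdeg, hθ, hne, ncube hsq hnu⟩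
  obtain ⟨F1, F2, k1, k2, hF⟩ := two_F' hD h9
  obtain ⟨L0, hL0d, hL0s, hL01⟩ := L0_ex (K := K) j
  have hcj : ∀ {G : ℂ → ℂ}, Differentiable ℂ G →
      Differentiable ℂ (fun s => (starRingEnd ℂ) (G ((starRingEnd ℂ) s))) := by
    intro G hG s
    have h1 := (hG ((starRingEnd ℂ) s)).conj_conj
    rw [Complex.conj_conj] at h1
    exact h1
  refine ⟨fun s => L0 s * (F1 s * (starRingEnd ℂ) (F2 ((starRingEnd ℂ) s))) *
      (F2 s * (starRingEnd ℂ) (F1 ((starRingEnd ℂ) s))),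
    (hL0d.mul (k1.1.mul (hcj k2.1))).mul (k2.1.mul (hcj k1.1)), fun s hs => ?_, fun hk => ?_⟩
  · obtain ⟨a1, a2⟩ := LF_main Q.e6 Q.ramf Q.gal Q.art Pool.Agent.Y350.CT.rec j hD h9 hC hsq k1 k2 hs
    refine ⟨a1, ?_⟩
    have a3 : (ED (1 : F)).LSeries s = (E0 F).LSeries s := rfl
    rw [a3, a2, ← (hL0s s hs).2]
  · obtain ⟨h1, h2⟩ := hF hk
    refine ⟨?_, ?_, ?_⟩
    · have hc : ∀ z : ℂ, z ≠ 0 → (starRingEnd ℂ) z ≠ 0 := fun z hz => (map_ne_zero _).2 hz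
      simp only [map_one]
      exact mul_ne_zero (mul_ne_zero hL01 (mul_ne_zero h1 (hc _ h2))) (mul_ne_zero h2 (hc _ h1))
    · obtain ⟨⟨b1, -⟩, ⟨b3, -⟩⟩ := both P j hD hk h9
      exact Q.mwf K F j _ θ hC fin_one b1 b3
    · obtain ⟨⟨-, b2⟩, ⟨-, b4⟩⟩ := both P j hD hk h9
      exact Q.shf K F j _ θ hC (Q.sh1 K j) b2 b4

/-- the root as an algebraic integer -/
lemma root_int {K F : Type} [Field K] [NumberField K] [Field F] [NumberField F] [Algebra K F]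
    {D : 𝓞 K} {θ : F} (h : θ ^ 3 = algebraMap K F D) :
    ∃ θ' : 𝓞 F, (θ' : F) = θ ∧ θ' ^ 3 = algebraMap (𝓞 K) (𝓞 F) D := by
  have h1 : _root_.IsIntegral ℤ θ := by
    have h2 : _root_.IsIntegral ℤ (θ ^ 3) := by
      rw [h]
      exact (NumberField.RingOfIntegers.isIntegral_coe D).map (algebraMap K F).toIntAlgHom
    exact _root_.IsIntegral.of_pow (by norm_num : 0 < 3) h2
  obtain ⟨θ', hθ'⟩ : ∃ θ' : 𝓞 F, (θ' : F) = θ := ⟨⟨θ, h1⟩, rfl⟩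
  refine ⟨θ', hθ', ?_⟩
  apply NumberField.RingOfIntegers.coe_injective
  have e : algebraMap (𝓞 F) F (algebraMap (𝓞 K) (𝓞 F) D) = algebraMap K F D := rfl
  rw [map_pow, e, ← h, ← hθ']

/-- The theorem for the `D` of the class, with the condition on `E_D(K)` and `Ш(E_D / K)` -/
def S_E1 : Prop := ∀ (K : Type) [Field K] [NumberField K] [IsCyclotomicExtension {3} ℚ K],
  (∃ c : ℝ, 0 < c ∧ ∃ X₀ : ℕ, ∀ X : ℕ, X₀ ≤ X →
    c * X ≤ ({D : 𝓞 K | Algebra.norm ℤ D ≤ X ∧ ClsK D}.ncard : ℝ)) ∧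
  (∀ D : 𝓞 K, ClsK D → CritK D ∧ ∀ (F : Type) [Field F] [NumberField F] [Algebra K F] (θ : F),
    Module.finrank K F = 3 → θ ^ 3 = algebraMap K F D → LawE F (Tri D)) ∧
  ∀ ε : ℝ, 0 < ε → ∃ X₀ : ℕ, ∀ X : ℕ, X₀ ≤ X →
    (1 / 2 - ε) * ({D : 𝓞 K | Algebra.norm ℤ D ≤ X ∧ ClsK D}.ncard : ℝ) ≤
      ({D : 𝓞 K | Algebra.norm ℤ D ≤ X ∧ ClsK D ∧ Tri D}.ncard : ℝ)

theorem E1 (P : Parts) (Q : PartsE) (hjex : S_JEX) (hT : S_T4P) : S_E1 := by
  intro K _ _ _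
  obtain ⟨h1, h2, h3⟩ := hT K
  refine ⟨h1, fun D hD => ⟨(h2 D hD).2, ?_⟩, h3⟩
  intro F _ _ _ θ hdeg hθ
  obtain ⟨⟨j, hj⟩, -⟩ := hjex K
  obtain ⟨z, rfl⟩ := j.surjective D
  have hz : ClsE z := by
    refine ⟨?_, ?_, ?_⟩
    · have e1 := three_dvd_symm j hD.1
      rwa [RingEquiv.symm_apply_apply] at e1
    · intro x hx
      exact (MulEquiv.isUnit_map j).1 (hD.2.1 (j x) (by rw [← map_mul]; exact map_dvd j hx))
    · rw [← hj]
      exact hD.2.2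
  obtain ⟨n, π, hdt, rfl, -⟩ := ge2 z hz
  obtain ⟨θ', -, hθ'⟩ := root_int hθ
  have h := lawE P Q j hdt hz.2.1 hz.2.2 hdeg θ' hθ'
  have ht := tri_iff j P hdt hz.2.2
  obtain ⟨Lf, q1, q2, q3⟩ := h
  exact ⟨Lf, q1, q2, fun h' => q3 (ht.1 h')⟩

end Pool.Agent.Y696.CTE
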