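import Pool.Agent.Y696.CTK.Fin
import Pool.Agent.Y696.CTE.Asm
import Pool.Agent.Y655.CTE.Ram
import Pool.Agent.Y983.CTE.Gal
import Pool.Agent.Y779.CTE.Art
import Pool.Agent.Y710.CTE.Mwf
import Pool.Agent.Y858.CTE.Shf
import Pool.Agent.Y574.CTE.Sh1

/-!
# Project CTE: the parts

The parts are by helper655 (Ram), helper983 (Gal), helper779 (Art), helper710 (Mwf), helper858 (Shf)
and helper574 (Sh1).
-/

set_option autoImplicit false
set_option linter.unusedVariables false

open scoped Classical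

namespace Pool.Agent.Y696.CTE

theorem partsE : PartsE where
  e6 := Pool.Agent.Y655.CTE.e6
  ramf := Pool.Agent.Y655.CTE.ramf
  gal := Pool.Agent.Y983.CTE.gal
  art := Pool.Agent.Y779.CTE.art
  mwf := Pool.Agent.Y710.CTE.mwf
  shf := Pool.Agent.Y858.CTE.shf
  sh1 := Pool.Agent.Y574.CTE.sh1

theorem final : S_E1 :=
  E1 Pool.Agent.Y696.CTK.parts partsE Pool.Agent.Y455.CTK.jex Pool.Agent.Y696.CTK.final

end Pool.Agent.Y696.CTE
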