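import Mathlib
import Pool.Agent.Y696.CTE.Fin

/-!
# Project CTE: existence of the cubic extensions, and the final statement
-/

set_option autoImplicit false
set_option linter.unusedVariables false

open scoped Classical

namespace Pool.Agent.Y696.CTE

open NumberField IsDedekindDomain
open Pool.Agent.TH841.NF.D (Sha)
open Pool.Agent.Y696.CTK

/-- the cubic extension exists -/
lemma ext_ex {K : Type} [Field K] [NumberField K] {D : 𝓞 K} (hD : Squarefree D)
    (hu : ¬ IsUnit D) : ∃ (F : Type) (_ : Field F) (_ : NumberField F) (_ : Algebra K F) (θ : F),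
      Module.finrank K F = 3 ∧ θ ^ 3 = algebraMap K F D := by
  obtain ⟨θ, hθ⟩ := IsAlgClosed.exists_pow_nat_eq (algebraMap K (AlgebraicClosure K) D)
    (n := 3) (by norm_num)
  have hirr : Irreducible (Polynomial.X ^ 3 - Polynomial.C (D : K)) := by
    refine (X_pow_sub_C_irreducible_iff_of_prime Nat.prime_three).2 fun b hb => hu ?_
    have h1 : _root_.IsIntegral ℤ b := by
      have h2 : _root_.IsIntegral ℤ (b ^ 3) := by
        rw [hb]
        exact NumberField.RingOfIntegers.isIntegral_coe D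
      exact _root_.IsIntegral.of_pow (by norm_num : 0 < 3) h2
    obtain ⟨b', rfl⟩ : ∃ b' : 𝓞 K, (b' : K) = b := ⟨⟨b, h1⟩, rfl⟩
    have h3 : b' ^ 3 = D := by
      apply NumberField.RingOfIntegers.coe_injective
      rw [map_pow]
      exact hb
    have h4 : IsUnit b' := hD b' ⟨b', by rw [← h3]; ring⟩
    rw [← h3]
    exact h4.pow 3
  have hmin : minpoly K θ = Polynomial.X ^ 3 - Polynomial.C (D : K) := by
    symm
    refine minpoly.eq_of_irreducible_of_monic hirr ?_ (Polynomial.monic_X_pow_sub_C _ (by norm_num))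
    simp only [map_sub, map_pow, Polynomial.aeval_X, Polynomial.aeval_C, hθ, sub_self]
  have hint : _root_.IsIntegral K θ := Algebra.IsIntegral.isIntegral θ
  have hfd : FiniteDimensional K (IntermediateField.adjoin K {θ}) :=
    IntermediateField.adjoin.finiteDimensional hint
  have hfr : Module.finrank K (IntermediateField.adjoin K {θ}) = 3 := by
    rw [IntermediateField.adjoin.finrank hint, hmin, Polynomial.natDegree_X_pow_sub_C]
  have hnf : NumberField (IntermediateField.adjoin K {θ}) := by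
    have h0 : CharZero (IntermediateField.adjoin K {θ}) :=
      charZero_of_injective_algebraMap (algebraMap K _).injective
    exact { to_charZero := h0, to_finiteDimensional := Module.Finite.trans K _ }
  refine ⟨IntermediateField.adjoin K {θ}, inferInstance, hnf, inferInstance,
    ⟨θ, IntermediateField.mem_adjoin_simple_self K θ⟩, hfr, ?_⟩
  apply Subtype.ext
  exact hθ

/-- the strong form -/
def RZ (F : Type) [Field F] [NumberField F] : Prop :=
  (∃ Lf : ℂ → ℂ, Differentiable ℂ Lf ∧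
    (∀ s : ℂ, 3 / 2 < s.re → LSeriesSummable ((fun n : ℤ => (n : ℂ)) ∘ (ED (1 : F)).LFunction) s ∧
      Lf s = (ED (1 : F)).LSeries s) ∧ Lf 1 ≠ 0) ∧
  Finite (ED (1 : F)).toAffine.Point ∧
  ∀ (n : ℕ) (x : Sha (ED (1 : F))), 3 ^ n • x = 0 → 3 • x = 0

/-- the L-function is entire -/
def LE (F : Type) [Field F] [NumberField F] : Prop :=
  ∃ Lf : ℂ → ℂ, Differentiable ℂ Lf ∧
    (∀ s : ℂ, 3 / 2 < s.re → LSeriesSummable ((fun n : ℤ => (n : ℂ)) ∘ (ED (1 : F)).LFunction) s ∧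
      Lf s = (ED (1 : F)).LSeries s)

lemma LawE.le {F : Type} [Field F] [NumberField F] {t : Prop} (h : LawE F t) : LE F := by
  obtain ⟨Lf, h1, h2, -⟩ := h
  exact ⟨Lf, h1, h2⟩

lemma LawE.rz {F : Type} [Field F] [NumberField F] {t : Prop} (h : LawE F t) (ht : t) : RZ F := by
  obtain ⟨Lf, h1, h2, h3⟩ := h
  exact ⟨⟨Lf, h1, h2, (h3 ht).1⟩, (h3 ht).2.1, (h3 ht).2.2⟩

/-- The final statement. -/
theorem final2 (K : Type) [Field K] [NumberField K] [IsCyclotomicExtension {3} ℚ K] :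
    (∃ c : ℝ, 0 < c ∧ ∃ X₀ : ℕ, ∀ X : ℕ, X₀ ≤ X →
      c * X ≤ ({D : 𝓞 K | Algebra.norm ℤ D ≤ X ∧ ClsK D}.ncard : ℝ)) ∧
    (∀ D : 𝓞 K, ClsK D →
      (∃ (F : Type) (_ : Field F) (_ : NumberField F) (_ : Algebra K F) (θ : F),
        Module.finrank K F = 3 ∧ θ ^ 3 = algebraMap K F D) ∧
      (∃ (ω : 𝓞 K) (n : ℕ) (π : Fin n → 𝓞 K) (χ : Fin n → Fin n → ZMod 3),
        ω ^ 2 + ω + 1 = 0 ∧ IsFact ω D n π χ) ∧
      ∀ (F : Type) [Field F] [NumberField F] [Algebra K F] (θ : F),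
        Module.finrank K F = 3 → θ ^ 3 = algebraMap K F D → LE F ∧
        ∀ (ω : 𝓞 K) (n : ℕ) (π : Fin n → 𝓞 K) (χ : Fin n → Fin n → ZMod 3),
          ω ^ 2 + ω + 1 = 0 → IsFact ω D n π χ → Lap χ → RZ F) ∧
    ∀ ε : ℝ, 0 < ε → ∃ X₀ : ℕ, ∀ X : ℕ, X₀ ≤ X →
      (1 / 2 - ε) * ({D : 𝓞 K | Algebra.norm ℤ D ≤ X ∧ ClsK D}.ncard : ℝ) ≤
        ({D : 𝓞 K | Algebra.norm ℤ D ≤ X ∧ ClsK D ∧
          ∀ (F : Type) [Field F] [NumberField F] [Algebra K F] (θ : F),
            Module.finrank K F = 3 → θ ^ 3 = algebraMap K F D → RZ F}.ncard : ℝ) := by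
  obtain ⟨h1, h2, h3⟩ := final K
  obtain ⟨⟨j, hj⟩, -⟩ := Pool.Agent.Y455.CTK.jex K
  refine ⟨h1, fun D hD => ⟨?_, (h2 D hD).1.1, fun F _ _ _ θ ha hb => ?_⟩, fun ε hε => ?_⟩
  · refine ext_ex hD.2.1 fun hu => hD.2.2 ?_
    have h4 : Algebra.norm ℤ D = 1 := by
      obtain ⟨z, rfl⟩ := j.surjective D
      rw [hj]
      exact Pool.Agent.Y692.QS.isUnit_iff.1 ((MulEquiv.isUnit_map j).1 hu)
    rw [h4, sub_self]
    exact dvd_zero _
  · obtain ⟨h5, h6⟩ := h2 D hD
    have h7 := h6 F θ ha hb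
    exact ⟨h7.le, fun ω n π χ hω hf hl => h7.rz ((h5.2 ω n π χ hω hf).2 hl)⟩
  · obtain ⟨X₀, h⟩ := h3 ε hε
    refine ⟨X₀, fun X hX => (h X hX).trans ?_⟩
    have hfin : {D : 𝓞 K | Algebra.norm ℤ D ≤ X ∧ ClsK D}.Finite := by
      have hf : {D : Pool.Agent.Y692.QS.Ei | Pool.Agent.Y692.QS.nr D ≤ X}.Finite := by
        refine Set.Finite.subset (((Set.finite_Icc (-(2 * X : ℤ)) (2 * X)).prod
          (Set.finite_Icc (-(2 * X : ℤ)) (2 * X))).image
            fun p : ℤ × ℤ => (⟨p.1, p.2⟩ : Pool.Agent.Y692.QS.Ei)) ?_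
        intro D hD
        have hD' : D.re ^ 2 - D.re * D.im + D.im ^ 2 ≤ X := hD
        have hX : (0 : ℤ) ≤ X := Int.natCast_nonneg X
        have h1 : D.re ^ 2 ≤ 2 * X := by nlinarith [sq_nonneg (D.re - 2 * D.im)]
        have h2 : D.im ^ 2 ≤ 2 * X := by nlinarith [sq_nonneg (2 * D.re - D.im)]
        have h3 : |D.re| ≤ 2 * X :=
          ((Int.natCast_natAbs D.re).symm.le.trans (Int.natAbs_le_self_sq _)).trans h1
        have h4 : |D.im| ≤ 2 * X :=
          ((Int.natCast_natAbs D.im).symm.le.trans (Int.natAbs_le_self_sq _)).trans h2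
        exact ⟨(D.re, D.im), ⟨abs_le.1 h3, abs_le.1 h4⟩, rfl⟩
      refine (hf.image j).subset ?_
      rintro D ⟨h4, -⟩
      obtain ⟨z, rfl⟩ := j.surjective D
      exact ⟨z, by rw [hj] at h4; exact h4, rfl⟩
    have h8 : {D : 𝓞 K | Algebra.norm ℤ D ≤ X ∧ ClsK D ∧ Tri D}.ncard ≤
        {D : 𝓞 K | Algebra.norm ℤ D ≤ X ∧ ClsK D ∧
          ∀ (F : Type) [Field F] [NumberField F] [Algebra K F] (θ : F),
            Module.finrank K F = 3 → θ ^ 3 = algebraMap K F D → RZ F}.ncard := by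
      refine Set.ncard_le_ncard ?_ (hfin.subset fun D hD => ⟨hD.1, hD.2.1⟩)
      rintro D ⟨a1, a2, a3⟩
      exact ⟨a1, a2, fun F _ _ _ θ ha hb => ((h2 D a2).2 F θ ha hb).rz a3⟩
    exact_mod_cast h8

end Pool.Agent.Y696.CTE
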