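import Mathlib
import Pool.Agent.Y696.CTE.Ext
import Pool.Agent.Y43.CTP.Cardf

/-!
# Project CTE: the final statement with the number of the points

The number of the points is by helper43 (`Pool.Agent.Y43.CTP.cardf`).
-/

set_option autoImplicit false
set_option linter.unusedVariables false

open scoped Classical

namespace Pool.Agent.Y696.CTE

open NumberField IsDedekindDomain
open Pool.Agent.Y692.QS (Ei)
open Pool.Agent.TH841.NF.D (Sha)
open Pool.Agent.Y696.CTK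

/-- nine points -/
lemma nine {K : Type} [Field K] [NumberField K] [IsCyclotomicExtension {3} ℚ K] {D : 𝓞 K}
    (hD : ClsK D) (h2 : D ≠ -2) {F : Type} [Field F] [NumberField F] [Algebra K F] {θ : F}
    (hd : Module.finrank K F = 3) (hθ : θ ^ 3 = algebraMap K F D) (h : RZ F) :
    Nat.card (ED (1 : F)).toAffine.Point = 9 := by
  obtain ⟨⟨j, hj⟩, -⟩ := Pool.Agent.Y455.CTK.jex K
  obtain ⟨z, rfl⟩ := j.surjective D
  have hz : (3 : Ei) ∣ z - 1 := by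
    have e1 := three_dvd_symm j hD.1
    rwa [RingEquiv.symm_apply_apply] at e1
  have hsq : Squarefree z := by
    intro x hx
    exact (MulEquiv.isUnit_map j).1 (hD.2.1 (j x) (by rw [← map_mul]; exact map_dvd j hx))
  have hnu : ¬ IsUnit z := by
    intro hu
    apply hD.2.2
    rw [hj, Pool.Agent.Y692.QS.isUnit_iff.1 hu, sub_self]
    exact dvd_zero _
  have hz2 : z ≠ -2 := by
    rintro rfl
    apply h2
    rw [map_neg, map_ofNat]
  obtain ⟨θ', -, hθ'⟩ := root_int hθ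
  exact Pool.Agent.Y43.CTP.cardf K F j z θ' ⟨hd, hθ', hsq.ne_zero, ncube hsq hnu⟩ hsq hz hz2 h.2.1

/-- rank zero, with nine points -/
def RZ9 {K : Type} [Field K] [NumberField K] (D : 𝓞 K) (F : Type) [Field F] [NumberField F] :
    Prop :=
  RZ F ∧ (D ≠ -2 → Nat.card (ED (1 : F)).toAffine.Point = 9)

/-- The final statement. -/
theorem final9 (K : Type) [Field K] [NumberField K] [IsCyclotomicExtension {3} ℚ K] :
    (∃ c : ℝ, 0 < c ∧ ∃ X₀ : ℕ, ∀ X : ℕ, X₀ ≤ X →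
      c * X ≤ ({D : 𝓞 K | Algebra.norm ℤ D ≤ X ∧ ClsK D}.ncard : ℝ)) ∧
    (∀ D : 𝓞 K, ClsK D →
      (∃ (F : Type) (_ : Field F) (_ : NumberField F) (_ : Algebra K F) (θ : F),
        Module.finrank K F = 3 ∧ θ ^ 3 = algebraMap K F D) ∧
      (∃ (ω : 𝓞 K) (n : ℕ) (π : Fin n → 𝓞 K) (χ : Fin n → Fin n → ZMod 3),
        ω ^ 2 + ω + 1 = 0 ∧ IsFact ω D n π χ) ∧
      ∀ (F : Type) [Field F] [NumberField F] [Algebra K F] (θ : F),
        Module.finrank K F = 3 → θ ^ 3 = algebraMap K F D → LE F ∧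
        ∀ (ω : 𝓞 K) (n : ℕ) (π : Fin n → 𝓞 K) (χ : Fin n → Fin n → ZMod 3),
          ω ^ 2 + ω + 1 = 0 → IsFact ω D n π χ → Lap χ →
            RZ F ∧ (D ≠ -2 → Nat.card (ED (1 : F)).toAffine.Point = 9)) ∧
    ∀ ε : ℝ, 0 < ε → ∃ X₀ : ℕ, ∀ X : ℕ, X₀ ≤ X →
      (1 / 2 - ε) * ({D : 𝓞 K | Algebra.norm ℤ D ≤ X ∧ ClsK D}.ncard : ℝ) ≤
        ({D : 𝓞 K | Algebra.norm ℤ D ≤ X ∧ ClsK D ∧
          ∀ (F : Type) [Field F] [NumberField F] [Algebra K F] (θ : F),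
            Module.finrank K F = 3 → θ ^ 3 = algebraMap K F D →
              RZ F ∧ (D ≠ -2 → Nat.card (ED (1 : F)).toAffine.Point = 9)}.ncard : ℝ) := by
  obtain ⟨h1, h2, h3⟩ := final2 K
  refine ⟨h1, fun D hD => ?_, fun ε hε => ?_⟩
  · obtain ⟨a1, a2, a3⟩ := h2 D hD
    refine ⟨a1, a2, fun F _ _ _ θ hd hθ => ?_⟩
    obtain ⟨b1, b2⟩ := a3 F θ hd hθ
    refine ⟨b1, fun ω n π χ hω hf hl => ?_⟩
    have h4 := b2 ω n π χ hω hf hl
    exact ⟨h4, fun h => nine hD h hd hθ h4⟩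
  · obtain ⟨X₀, h⟩ := h3 ε hε
    refine ⟨X₀, fun X hX => (h X hX).trans (le_of_eq ?_)⟩
    congr 2
    ext D
    constructor
    · rintro ⟨c1, c2, c3⟩
      refine ⟨c1, c2, fun F _ _ _ θ hd hθ => ?_⟩
      have h4 := c3 F θ hd hθ
      exact ⟨h4, fun h => nine c2 h hd hθ h4⟩
    · rintro ⟨c1, c2, c3⟩
      exact ⟨c1, c2, fun F _ _ _ θ hd hθ => (c3 F θ hd hθ).1⟩

end Pool.Agent.Y696.CTE
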